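import Mathlib.Algebra.MvPolynomial.Eval
import Mathlib.Algebra.MvPolynomial.Degrees
import Mathlib.Data.ZMod.Defs
import Mathlib.Data.Real.Basic
import Mathlib.Algebra.Group.Indicator
import Mathlib.SetTheory.Cardinal.Finite
import Pool.Agent.Helper81.Complexity

/-!
# Randomized machines and zero sets of polynomials in the coins

Turing machines are Mathlib's multi-stack machines; `PolyTimeComputable` and `Problem.InP` are in
`Pool.Agent.Helper81.CxDefs`, `Problem.ofLanguage` is in `Pool.Agent.Helper81.Complexity`.
-/

namespace Pool.Agent.Helper51.ZP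

open Pool.Agent.Helper81.CC Computability

/-- The language `L ⊆ {0,1}^*` is in `P`. -/
def InP (L : Set (List Bool)) : Prop := (Problem.ofLanguage L).InP

/-- A randomized polynomial-time algorithm: a function `M` of an input string and a coin string,
computed by a Turing machine in polynomial time, and a polynomial `m` for the number of coins. -/
structure Machine where
  /-- the answer of the machine on an input and a coin string -/
  M : List Bool × List Bool → Bool
  /-- it is computable in polynomial time -/
  poly : PolyTimeComputable (fun z : List Bool × List Bool => pairEnc z.1 z.2) encodeBool M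
  /-- the number of coins, as a polynomial in the length of the input -/
  m : Polynomial ℕ

/-- The number of coins used on the input `x`. -/
def Machine.coins (A : Machine) (x : List Bool) : ℕ := A.m.eval x.length

/-- The string of bits of a vector over `F_2`: the `i`-th bit is `1` iff `r i = 1`. -/
def bits {n : ℕ} (r : Fin n → ZMod 2) : List Bool := List.ofFn fun i => decide (r i = 1)

/-- The common zeros in `F_2^n` of a set of polynomials over `F_2`. -/
def Zeros {n : ℕ} (Q : Set (MvPolynomial (Fin n) (ZMod 2))) : Set (Fin n → ZMod 2) :=
  {r | ∀ q ∈ Q, MvPolynomial.eval r q = 0}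

/-- The function `P(r) + ∑ᵢ cᵢ [r is a common zero of Qᵢ]` on `F_2^m`, where the real polynomial `P`
is evaluated at the real `0/1`-vector of the bits of `r`. -/
noncomputable def certVal {m k : ℕ} (P : MvPolynomial (Fin m) ℝ) (c : Fin k → ℝ)
    (Q : Fin k → Set (MvPolynomial (Fin m) (ZMod 2))) (r : Fin m → ZMod 2) : ℝ :=
  MvPolynomial.eval (fun i => if r i = 1 then (1 : ℝ) else 0) P +
    ∑ i, c i * (Zeros (Q i)).indicator (fun _ => (1 : ℝ)) r

/-- `S ⊆ F_2^m` is `(d, w)`-certified: there is a function `f = P + ∑ᵢ cᵢ [Zeros Qᵢ]` which is
positive only on `S`, with a real polynomial `P` of total degree at most `d`, sets `Qᵢ` (of any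
size) of polynomials over `F_2` of total degree at most `d`, and real numbers `cᵢ`, such that the
mean of `f` is positive and at least `(∑ᵢ |cᵢ|) / w`. -/
def Certified (d w : ℕ) {m : ℕ} (S : Set (Fin m → ZMod 2)) : Prop :=
  ∃ (P : MvPolynomial (Fin m) ℝ) (k : ℕ) (c : Fin k → ℝ)
    (Q : Fin k → Set (MvPolynomial (Fin m) (ZMod 2))),
    P.totalDegree ≤ d ∧ (∀ i, ∀ q ∈ Q i, q.totalDegree ≤ d) ∧
    (∀ r, 0 < certVal P c Q r → r ∈ S) ∧
    0 < ∑ r, certVal P c Q r ∧
    2 ^ m * ∑ i, |c i| ≤ w * ∑ r, certVal P c Q r

/-- `L` is decided with one-sided error by a randomized polynomial-time algorithm in stages: the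
coin string is a sequence of blocks of `A.coins x` bits, one for each of the `T |x|` stages, and
`A.M (x, h) = true` says that the run with the history `h` (the blocks tossed so far) has not
failed at its last stage.
If `x ∉ L` then every run fails at some stage; if `x ∈ L` then at each stage, whatever the
history of a run that has not failed so far, the blocks with which it does not fail at this stage
form a `(d, w |x|)`-certified set. -/
def InStages (d : ℕ) (L : Set (List Bool)) : Prop :=
  ∃ (A : Machine) (T w : Polynomial ℕ),
    (∀ x, x ∉ L → ∀ h : List Bool, h.length = T.eval x.length * A.coins x →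
      ∃ j, 1 ≤ j ∧ j ≤ T.eval x.length ∧ A.M (x, h.take (j * A.coins x)) = false) ∧
    (∀ x ∈ L, ∀ j < T.eval x.length, ∀ h : List Bool, h.length = j * A.coins x →
      (∀ i, 1 ≤ i → i ≤ j → A.M (x, h.take (i * A.coins x)) = true) →
      Certified d (w.eval x.length)
        {r : Fin (A.coins x) → ZMod 2 | A.M (x, h ++ bits r) = true})

end Pool.Agent.Helper51.ZP
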