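import Pool.Agent.Helper51.ZP.Lfsr

/-!
# Bounded independence from sums of shift register sequences
-/

namespace Pool.Agent.Helper51.ZP

open Finset

/-! ### Real functions of bounded degree on the cube -/

section
variable {m : ℕ}

/-- the support -/
def supp (a : Fin m → ZMod 2) : Finset (Fin m) := univ.filter fun i => a i ≠ 0

theorem card_supp_add (a b : Fin m → ZMod 2) :
    (supp (a + b)).card ≤ (supp a).card + (supp b).card := by
  refine le_trans (card_le_card ?_) (card_union_le _ _)
  intro i hi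
  simp only [supp, mem_filter, mem_univ, true_and, mem_union, Pi.add_apply] at hi ⊢
  by_contra hcon
  push Not at hcon
  exact hi (by rw [hcon.1, hcon.2, add_zero])

/-- the span of the characters of weight at most `d` -/
def lowDeg (m d : ℕ) : Submodule ℝ ((Fin m → ZMod 2) → ℝ) :=
  Submodule.span ℝ {f | ∃ a : Fin m → ZMod 2, (supp a).card ≤ d ∧ f = fun x => sg (a ⬝ᵥ x)}

theorem lowDeg_mono {d e : ℕ} (h : d ≤ e) : lowDeg m d ≤ lowDeg m e := by
  refine Submodule.span_mono ?_
  rintro f ⟨a, ha, rfl⟩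
  exact ⟨a, ha.trans h, rfl⟩

theorem char_mem {d : ℕ} (a : Fin m → ZMod 2) (ha : (supp a).card ≤ d) :
    (fun x => sg (a ⬝ᵥ x)) ∈ lowDeg m d := Submodule.subset_span ⟨a, ha, rfl⟩

theorem one_mem_lowDeg (d : ℕ) : (fun _ => (1 : ℝ)) ∈ lowDeg m d := by
  have h := char_mem (m := m) (d := d) 0 (by simp [supp])
  simpa using h

theorem mul_mem_lowDeg {d e : ℕ} {f g : (Fin m → ZMod 2) → ℝ} (hf : f ∈ lowDeg m d)
    (hg : g ∈ lowDeg m e) : (fun x => f x * g x) ∈ lowDeg m (d + e) := by
  induction hf using Submodule.span_induction with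
  | mem f hf =>
    obtain ⟨a, ha, rfl⟩ := hf
    induction hg using Submodule.span_induction with
    | mem g hg =>
      obtain ⟨b, hb, rfl⟩ := hg
      refine Submodule.subset_span ⟨a + b, (card_supp_add a b).trans (Nat.add_le_add ha hb), ?_⟩
      funext x
      rw [add_dotProduct, sg_add]
    | zero => simp only [Pi.zero_apply, mul_zero]; exact Submodule.zero_mem _
    | add g g' _ _ h1 h2 =>
      simp only [Pi.add_apply, mul_add]
      exact Submodule.add_mem _ h1 h2
    | smul c g _ h1 =>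
      have := Submodule.smul_mem _ c h1
      refine (congrArg (· ∈ lowDeg m (d + e)) ?_).mpr this
      funext x
      simp only [Pi.smul_apply, smul_eq_mul]
      ring
  | zero => simp only [Pi.zero_apply, zero_mul]; exact Submodule.zero_mem _
  | add f f' _ _ h1 h2 =>
    simp only [Pi.add_apply, add_mul]
    exact Submodule.add_mem _ h1 h2
  | smul c f _ h1 =>
    have := Submodule.smul_mem _ c h1
    refine (congrArg (· ∈ lowDeg m (d + e)) ?_).mpr this
    funext x
    simp only [Pi.smul_apply, smul_eq_mul]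
    ring

/-- the real value of a bit -/
def rv (z : ZMod 2) : ℝ := if z = 1 then 1 else 0

theorem rv_eq (z : ZMod 2) : rv z = (1 - sg z) / 2 := by
  have h10 : (1 : ZMod 2) ≠ 0 := by decide
  have h01 : ¬ (0 : ZMod 2) = 1 := by decide
  rcases zmod2_cases z with rfl | rfl <;> simp [rv, sg, h10, h01]

theorem rv_pow (z : ZMod 2) (n : ℕ) (hn : n ≠ 0) : rv z ^ n = rv z := by
  rw [rv]
  split_ifs <;> simp [hn]

theorem coord_mem (i : Fin m) : (fun x : Fin m → ZMod 2 => rv (x i)) ∈ lowDeg m 1 := by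
  have h1 : (fun x : Fin m → ZMod 2 => sg (x i)) ∈ lowDeg m 1 := by
    have := char_mem (m := m) (d := 1) (Pi.single i 1) (by
      have : supp (Pi.single i (1 : ZMod 2)) = {i} := by
        ext j
        simp only [supp, mem_filter, mem_univ, true_and, mem_singleton]
        constructor
        · intro h
          by_contra hne
          exact h (by rw [Pi.single_eq_of_ne hne])
        · rintro rfl
          simp
      rw [this]; simp)
    simpa using this
  have h2 := Submodule.smul_mem (lowDeg m 1) (1 / 2 : ℝ)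
    (Submodule.sub_mem _ (one_mem_lowDeg 1) h1)
  refine (congrArg (· ∈ lowDeg m 1) ?_).mpr h2
  funext x
  simp only [Pi.smul_apply, Pi.sub_apply, smul_eq_mul, rv_eq]
  ring

theorem coord_pow_mem (i : Fin m) (n : ℕ) :
    (fun x : Fin m → ZMod 2 => rv (x i) ^ n) ∈ lowDeg m n := by
  rcases Nat.eq_zero_or_pos n with h | h
  · subst h; simpa using one_mem_lowDeg (m := m) 0
  · have : (fun x : Fin m → ZMod 2 => rv (x i) ^ n) = fun x => rv (x i) := by
      funext x; exact rv_pow _ _ h.ne'
    rw [this]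
    exact lowDeg_mono h (coord_mem i)

theorem prod_mem_lowDeg (s : Finset (Fin m)) (e : Fin m → ℕ) :
    (fun x : Fin m → ZMod 2 => ∏ i ∈ s, rv (x i) ^ e i) ∈ lowDeg m (∑ i ∈ s, e i) := by
  classical
  induction s using Finset.induction_on with
  | empty => simpa using one_mem_lowDeg (m := m) 0
  | insert a s ha ih =>
    have := mul_mem_lowDeg (coord_pow_mem a (e a)) ih
    simp only [prod_insert ha, sum_insert ha]
    exact this

/-- A real polynomial of total degree at most `d` is a combination of characters of weight at most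
`d` on the cube. -/
theorem eval_mem_lowDeg {d : ℕ} (P : MvPolynomial (Fin m) ℝ) (hP : P.totalDegree ≤ d) :
    (fun x : Fin m → ZMod 2 => MvPolynomial.eval (fun i => rv (x i)) P) ∈ lowDeg m d := by
  have e : (fun x : Fin m → ZMod 2 => MvPolynomial.eval (fun i => rv (x i)) P) =
      ∑ s ∈ P.support, P.coeff s • (fun x : Fin m → ZMod 2 => ∏ i ∈ s.support, rv (x i) ^ s i) := by
    funext x
    rw [MvPolynomial.eval_eq, Finset.sum_apply]
    rfl
  rw [e]
  refine Submodule.sum_mem _ fun s hs => Submodule.smul_mem _ _ ?_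
  refine lowDeg_mono ?_ (prod_mem_lowDeg s.support s)
  refine le_trans ?_ hP
  have := MvPolynomial.le_totalDegree hs
  simpa [Finsupp.sum] using this

/-- all characters of weight between `1` and `d` have mean `0` -/
def Indep {Ω : Type} [Fintype Ω] (d : ℕ) (Y : Ω → Fin m → ZMod 2) : Prop :=
  ∀ a : Fin m → ZMod 2, a ≠ 0 → (supp a).card ≤ d → Ex (fun ω => sg (a ⬝ᵥ Y ω)) = 0

theorem Indep.Ex_eq {Ω : Type} [Fintype Ω] [Nonempty Ω] {d : ℕ} {Y : Ω → Fin m → ZMod 2}
    (h : Indep d Y) {f : (Fin m → ZMod 2) → ℝ} (hf : f ∈ lowDeg m d) :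
    Ex (fun ω => f (Y ω)) = Ex f := by
  induction hf using Submodule.span_induction with
  | mem f hf =>
    obtain ⟨a, ha, rfl⟩ := hf
    by_cases h0 : a = 0
    · subst h0
      simp [Ex_const]
    · rw [h a h0 ha]
      have h1 := Ex_sg_dot a
      rw [if_neg h0] at h1
      rw [← h1]
      congr 1
      funext x
      rw [dotProduct_comm]
  | zero => simp [Ex]
  | add f g _ _ h1 h2 =>
    simp only [Pi.add_apply]
    rw [Ex_add, h1, h2]
    have : Ex (f + g) = Ex (fun x => f x + g x) := rfl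
    rw [this, Ex_add]
  | smul c f _ h1 =>
    simp only [Pi.smul_apply, smul_eq_mul]
    rw [Ex_mul, h1]
    have : Ex (c • f) = Ex (fun x => c * f x) := rfl
    rw [this, Ex_mul]

theorem Indep.add_indep {Ω Ω' : Type} [Fintype Ω] [Fintype Ω'] {d : ℕ}
    {Y : Ω → Fin m → ZMod 2} (h : Indep d Y) (Z : Ω' → Fin m → ZMod 2) :
    Indep d (fun p : Ω × Ω' => Y p.1 + Z p.2) := by
  intro a h0 ha
  rw [Ex_prod]
  have : ∀ ω, Ex (fun ω' => sg (a ⬝ᵥ (Y ω + Z ω'))) =
      sg (a ⬝ᵥ Y ω) * Ex (fun ω' => sg (a ⬝ᵥ Z ω')) := by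
    intro ω
    rw [← Ex_mul]
    congr 1
    funext ω'
    rw [dotProduct_add, sg_add]
  simp only [this]
  rw [Ex_mul', h a h0 ha, zero_mul]

end

/-! ### The sample space -/

section
variable {F : Type} [Field F] [Fintype F] [DecidableEq F] [Algebra (ZMod 2) F]

theorem sums_add {ι : Type} {A : Set (ι → ZMod 2)} {a : ℕ} {u : ι → ZMod 2} (hu : u ∈ sums A a) :
    ∀ {b : ℕ} {v : ι → ZMod 2}, v ∈ sums A b → u + v ∈ sums A (a + b)
  | 0, v, hv => by
    have : v = 0 := hv
    subst this
    simpa using hu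
  | b + 1, v, hv => by
    obtain ⟨y, hy, w, hw, rfl⟩ := hv
    exact ⟨u + y, sums_add hu hy, w, hw, by rw [add_assoc]⟩

/-- the sum of the samples with the parameters `(g ^ j, φ j)` -/
noncomputable def kGen (m d : ℕ) (g : F) (φ : Fin d → Module.Dual (ZMod 2) F) : Fin m → ZMod 2 :=
  ∑ j : Fin d, powGen m (g ^ (j : ℕ), φ j)

theorem kGen_mem (m : ℕ) (g : F) : ∀ (d : ℕ) (φ : Fin d → Module.Dual (ZMod 2) F),
    kGen m d g φ ∈ sums (Set.range (powGen (F := F) m)) d
  | 0, φ => by
    have : kGen m 0 g φ = 0 := by simp [kGen]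
    rw [this]; rfl
  | d + 1, φ => by
    refine ⟨kGen m d g (fun j => φ j.castSucc), kGen_mem m g d _,
      powGen m (g ^ d, φ (Fin.last d)), ⟨(g ^ d, φ (Fin.last d)), rfl⟩, ?_⟩
    rw [kGen, Fin.sum_univ_castSucc]
    rfl

theorem Ex_pi_dual {d : ℕ} (s : Fin d → F) (hs : s ≠ 0) :
    Ex (fun φ : Fin d → Module.Dual (ZMod 2) F => sg (∑ j, φ j (s j))) = 0 := by
  obtain ⟨j, hj⟩ : ∃ j, s j ≠ 0 := by
    by_contra hcon
    push Not at hcon
    exact hs (funext hcon)
  obtain ⟨ψ, hψ⟩ : ∃ ψ : Module.Dual (ZMod 2) F, ψ (s j) ≠ 0 := by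
    by_contra hcon
    push Not at hcon
    exact hj ((Module.forall_dual_apply_eq_zero_iff (ZMod 2) (s j)).1 hcon)
  have hψ1 : ψ (s j) = 1 := (zmod2_cases _).resolve_left hψ
  have h1 := Ex_equiv (Equiv.addRight (Pi.single j ψ))
    (fun φ : Fin d → Module.Dual (ZMod 2) F => sg (∑ j, φ j (s j)))
  have h2 : (fun φ : Fin d → Module.Dual (ZMod 2) F =>
      sg (∑ k, (Equiv.addRight (Pi.single j ψ) φ) k (s k))) =
      fun φ => (-1) * sg (∑ j, φ j (s j)) := by
    funext φ
    have : ∑ k, (Equiv.addRight (Pi.single j ψ) φ) k (s k) =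
        ∑ k, φ k (s k) + ψ (s j) := by
      simp only [Equiv.coe_addRight, Pi.add_apply, LinearMap.add_apply, sum_add_distrib]
      congr 1
      rw [sum_eq_single j]
      · simp
      · intro b _ hb
        rw [Pi.single_eq_of_ne hb]
        rfl
      · simp
    rw [this, sg_add, hψ1, sg_one]
    ring
  rw [h2, Ex_mul] at h1
  linarith

theorem kGen_indep {m d : ℕ} (g : F) (hg : Set.InjOn (fun i : ℕ => g ^ i) (Set.Iio m)) :
    Indep d (kGen m d g) := by
  intro a h0 ha
  set s : Fin d → F := fun j => ∑ i : Fin m, a i • (g ^ (j : ℕ)) ^ (i : ℕ) with hs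
  have e1 : ∀ φ : Fin d → Module.Dual (ZMod 2) F, a ⬝ᵥ kGen m d g φ = ∑ j, φ j (s j) := by
    intro φ
    simp only [dotProduct, kGen, Finset.sum_apply, powGen, hs, map_sum, map_smul, smul_eq_mul,
      mul_sum]
    rw [sum_comm]
  simp only [e1]
  apply Ex_pi_dual
  intro hs0
  -- an element of the support
  obtain ⟨i0, hi0⟩ : ∃ i, a i ≠ 0 := by
    by_contra hcon
    push Not at hcon
    exact h0 (funext hcon)
  have hlin : ∀ P : Polynomial F, P.natDegree < d →
      ∑ i : Fin m, a i • P.eval (g ^ (i : ℕ)) = 0 := by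
    intro P hP
    have : ∀ i : Fin m, P.eval (g ^ (i : ℕ)) =
        ∑ j : Fin d, P.coeff j * (g ^ (j : ℕ)) ^ (i : ℕ) := by
      intro i
      rw [Polynomial.eval_eq_sum_range' hP, Finset.sum_range]
      refine sum_congr rfl fun j _ => ?_
      rw [← pow_mul, ← pow_mul, mul_comm (i : ℕ)]
    simp only [this, smul_sum]
    rw [sum_comm]
    refine sum_eq_zero fun j _ => ?_
    have h2 : s j = 0 := congrFun hs0 j
    have h3 : ∑ i : Fin m, a i • (P.coeff j * (g ^ (j : ℕ)) ^ (i : ℕ)) = P.coeff j * s j := by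
      rw [hs, mul_sum]
      refine sum_congr rfl fun i _ => ?_
      rw [mul_smul_comm]
    rw [h3, h2, mul_zero]
  have hd : 0 < d := by
    have : 0 < (supp a).card := card_pos.2 ⟨i0, by simp [supp, hi0]⟩
    omega
  set P : Polynomial F := ∏ i ∈ (supp a).erase i0, (Polynomial.X - Polynomial.C (g ^ (i : ℕ)))
    with hP
  have hPdeg : P.natDegree < d := by
    rw [hP, Polynomial.natDegree_prod_of_monic _ _ fun i _ => Polynomial.monic_X_sub_C _]
    simp only [Polynomial.natDegree_X_sub_C, sum_const, smul_eq_mul, mul_one]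
    have : i0 ∈ supp a := by simp [supp, hi0]
    have h1 := card_erase_of_mem this
    have h2 : 0 < (supp a).card := card_pos.2 ⟨i0, this⟩
    omega
  have h4 := hlin P hPdeg
  rw [sum_eq_single i0] at h4
  · have h5 : P.eval (g ^ (i0 : ℕ)) ≠ 0 := by
      rw [hP, Polynomial.eval_prod]
      refine prod_ne_zero_iff.2 fun i hi => ?_
      rw [Polynomial.eval_sub, Polynomial.eval_X, Polynomial.eval_C, sub_ne_zero]
      intro h6
      have h7 := hg (Set.mem_Iio.2 i0.2) (Set.mem_Iio.2 i.2) h6
      exact (ne_of_mem_erase hi) (Fin.ext h7.symm)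
    have h6 : a i0 = 1 := (zmod2_cases _).resolve_left hi0
    rw [h6, one_smul] at h4
    exact h5 h4
  · intro i _ hi
    by_cases hai : a i = 0
    · rw [hai, zero_smul]
    · have : P.eval (g ^ (i : ℕ)) = 0 := by
        rw [hP, Polynomial.eval_prod]
        refine prod_eq_zero (i := i) (mem_erase.2 ⟨hi, by simp [supp, hai]⟩) ?_
        simp
      rw [this, smul_zero]
  · simp

/-- An element with many distinct powers. -/
theorem exists_gen (m : ℕ) (hm : m < Fintype.card F) :
    ∃ g : F, Set.InjOn (fun i : ℕ => g ^ i) (Set.Iio m) := by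
  obtain ⟨u, hu⟩ := IsCyclic.exists_generator (α := Fˣ)
  have hord : orderOf u = Fintype.card F - 1 := by
    rw [orderOf_eq_card_of_forall_mem_zpowers hu, Nat.card_eq_fintype_card, Fintype.card_units]
  refine ⟨(u : F), fun i hi j hj h => ?_⟩
  have h1 : u ^ i = u ^ j := by
    apply Units.ext
    simpa using h
  have hi' : i < orderOf u := by rw [hord]; simp only [Set.mem_Iio] at hi; omega
  have hj' : j < orderOf u := by rw [hord]; simp only [Set.mem_Iio] at hj; omega
  exact pow_injOn_Iio_orderOf hi' hj' h1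

end

end Pool.Agent.Helper51.ZP
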