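import Pool.Agent.Helper51.ZP.Alg
import Pool.Agent.Helper51.ZP.Kwise
import Pool.Agent.Helper51.ZP.Defs

/-!
# The hitting property; machines as functions of the calculus
-/

namespace Pool.Agent.Helper51.ZP

open Pool.Agent.Helper81.CC Pool.Agent.Helper31.TMSim Computability
open Pool.Agent.Helper83.CL

/-! ### Machines and the calculus -/

/-- A machine computed in polynomial time is a polynomial-time function of the calculus. -/
theorem PT_of_machine {M : List Bool × List Bool → Bool}
    (hM : PolyTimeComputable (fun z : List Bool × List Bool => pairEnc z.1 z.2) encodeBool M)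
    {α : Type} [ToData α] {f g : α → List Bool} (hf : PolyTime f) (hg : PolyTime g) :
    PolyTime (fun a => M (f a, g a)) := by
  have h0 := scomp_of_polyTimeComputable hM
  have h1 : PolyTime (fun a => pairEnc (f a) (g a)) := by
    unfold pairEnc
    exact PolyTime.append (PolyTime.flatMap (f := fun _ b => [true, b]) hf (by fun_prop))
      (PolyTime.list_cons (by fun_prop) hg)
  have h2 : SComp (encOf α) (fun x : List Bool => x) (fun a => pairEnc (f a) (g a)) :=
    SComp.comp scomp_toString h1.scomp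
  have h2' : SComp (encOf α) (fun z : List Bool × List Bool => pairEnc z.1 z.2)
      (fun a => (f a, g a)) := SComp.cast h2 fun a => ⟨a, rfl, rfl⟩
  have h3 : SComp (encOf α) (encOf (List Bool)) (fun a => encodeBool (M (f a, g a))) :=
    SComp.comp (scomp_enc encodeBool) (SComp.comp h0 h2')
  have h4 : PolyTime (fun l : List Bool => l.headD false) :=
    PolyTime.headD (by fun_prop) (by fun_prop)
  have h5 := SComp.comp h4.scomp h3
  exact ⟨SComp.congr h5 fun a => rfl⟩

/-- Deciding a language by a polynomial-time function of the calculus. -/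
theorem inP_of_PT {L : Set (List Bool)} {f : List Bool → Bool} (hf : PolyTime f)
    (h : ∀ x, x ∈ L ↔ f x = true) : InP L := by
  refine ⟨f, ?_, h⟩
  have h1 := SComp.comp scomp_bool (SComp.comp hf.scomp scomp_ofString)
  exact h1.computable

theorem PT_of_inP {L : Set (List Bool)} (h : InP L) :
    ∃ f : List Bool → Bool, PolyTime f ∧ ∀ x, x ∈ L ↔ f x = true := by
  obtain ⟨f, hf, h⟩ := h
  refine ⟨f, ?_, h⟩
  have h0 := scomp_of_polyTimeComputable hf
  have h3 : SComp (encOf (List Bool)) (encOf (List Bool)) (fun x => encodeBool (f x)) :=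
    SComp.comp (scomp_enc encodeBool) (SComp.comp h0 scomp_toString)
  have h4 : PolyTime (fun l : List Bool => l.headD false) :=
    PolyTime.headD (by fun_prop) (by fun_prop)
  exact ⟨SComp.congr (SComp.comp h4.scomp h3) fun a => rfl⟩

/-- one step of the decoding of pairs -/
def upStep (s : ℕ × List Bool × List Bool) (b : Bool) : ℕ × List Bool × List Bool :=
  if s.1 = 0 then (if b = true then (1, s.2) else (2, s.2))
  else if s.1 = 1 then (0, b :: s.2.1, s.2.2) else (2, s.2.1, b :: s.2.2)

/-- decoding of pairs -/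
def unpairL (w : List Bool) : List Bool × List Bool :=
  ((w.foldl upStep (0, [], [])).2.1.reverse, (w.foldl upStep (0, [], [])).2.2.reverse)

theorem foldl_up1 : ∀ (x xs ys : List Bool) (w : List Bool),
    ((x.flatMap fun b => [true, b]) ++ w).foldl upStep (0, xs, ys) =
      w.foldl upStep (0, x.reverse ++ xs, ys)
  | [], xs, ys, w => rfl
  | b :: x, xs, ys, w => by
    have := foldl_up1 x (b :: xs) ys w
    simp only [List.flatMap_cons, List.cons_append, List.nil_append, List.foldl_cons]
    simpa [upStep] using this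

theorem foldl_up2 : ∀ (y xs ys : List Bool),
    y.foldl upStep (2, xs, ys) = (2, xs, y.reverse ++ ys)
  | [], xs, ys => rfl
  | b :: y, xs, ys => by
    have := foldl_up2 y xs (b :: ys)
    simp only [List.foldl_cons]
    simpa [upStep] using this

theorem unpairL_pairEnc (x y : List Bool) : unpairL (pairEnc x y) = (x, y) := by
  have h1 : (pairEnc x y).foldl upStep (0, [], []) = (2, x.reverse, y.reverse) := by
    rw [pairEnc, foldl_up1, List.foldl_cons]
    have : upStep (0, x.reverse ++ [], []) false = (2, x.reverse, []) := by simp [upStep]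
    rw [this, foldl_up2]
    simp
  simp [unpairL, h1]

theorem PT_unpairL : PolyTime unpairL := by
  have h1 : PolyTime (fun w : List Bool => w.foldl upStep (0, [], [])) := by
    refine PolyTime.foldl_add (α := List Bool) (l := fun w => w) (s0 := fun _ => (0, [], []))
      (step := fun _ s b => upStep s b) (by fun_prop) (by fun_prop) ?_ (C := fun _ => 10)
      (PBd.const 10) ?_
    · unfold upStep
      fun_prop
    · rintro a ⟨p, xs, ys⟩ b _
      have := sz_bool b
      unfold upStep
      split_ifs <;> simp <;> omega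
  unfold unpairL
  fun_prop

/-- A polynomial-time function of the calculus is computed by a machine. -/
theorem machine_of_PT {M : List Bool × List Bool → Bool} (hM : PolyTime M) :
    PolyTimeComputable (fun z : List Bool × List Bool => pairEnc z.1 z.2) encodeBool M := by
  have h0 : SComp (fun z : List Bool × List Bool => pairEnc z.1 z.2) (encOf (List Bool))
      (fun z => pairEnc z.1 z.2) := scomp_enc _
  have h3 := SComp.comp hM.scomp (SComp.comp PT_unpairL.scomp h0)
  have h4 := SComp.comp scomp_bool h3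
  exact (SComp.congr h4 fun z => by rw [unpairL_pairEnc]).computable

/-! ### The hitting property -/

open Classical in
/-- A fooling distribution approximates the density of every zero set of bounded degree. -/
theorem fool_zeros {m d : ℕ} {η : ℝ} {Ω : Type} [Fintype Ω] {Y : Ω → Fin m → ZMod 2}
    (hY : Fool d η Y) (Q : Set (MvPolynomial (Fin m) (ZMod 2)))
    (hQ : ∀ q ∈ Q, q.totalDegree ≤ d) :
    |Ex (fun ω => if Y ω ∈ Zeros Q then (1 : ℝ) else 0) -
      Ex (fun x : Fin m → ZMod 2 => if x ∈ Zeros Q then (1 : ℝ) else 0)| ≤ η := by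
  obtain ⟨V, hV0, hV1, hV2⟩ := exists_phases (ι := Fin m) d
    ((fun q x => MvPolynomial.eval x q) '' Q) (by
      rintro _ ⟨q, hq, rfl⟩
      exact DegLE.eval q (hQ q hq))
  have hVpos : (0 : ℝ) < V.card := by exact_mod_cast hV0.card_pos
  have hz : ∀ x : Fin m → ZMod 2, (if x ∈ Zeros Q then (1 : ℝ) else 0) =
      (V.card : ℝ)⁻¹ * ∑ f ∈ V, sg (f x) := by
    intro x
    have h1 : (∀ q ∈ (fun (q : MvPolynomial (Fin m) (ZMod 2)) x => MvPolynomial.eval x q) '' Q,
        q x = 0) ↔ x ∈ Zeros Q := by
      constructor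
      · intro h q hq
        exact h _ ⟨q, hq, rfl⟩
      · rintro h _ ⟨q, hq, rfl⟩
        exact h q hq
    rw [hV2 x, if_congr h1 rfl rfl]
    split_ifs
    · rw [inv_mul_cancel₀ hVpos.ne']
    · simp
  simp only [hz]
  rw [Ex_mul, Ex_mul, ← mul_sub, abs_mul, abs_of_pos (inv_pos.2 hVpos), Ex_sum, Ex_sum,
    ← Finset.sum_sub_distrib, inv_mul_le_iff₀ hVpos]
  refine (Finset.abs_sum_le_sum_abs _ _).trans ?_
  refine (Finset.sum_le_sum fun f hf => hY f (hV1 f hf)).trans ?_
  rw [Finset.sum_const, nsmul_eq_mul]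

/-- The density of a set of vectors. -/
theorem Ex_indicator {m : ℕ} (S : Set (Fin m → ZMod 2)) [DecidablePred (· ∈ S)] :
    Ex (fun x : Fin m → ZMod 2 => if x ∈ S then (1 : ℝ) else 0) = Nat.card S / 2 ^ m := by
  classical
  rw [Ex, ← Finset.sum_filter, Finset.sum_const, nsmul_eq_mul, mul_one]
  have h2 : (Fintype.card (Fin m → ZMod 2) : ℝ) = 2 ^ m := by
    simp [ZMod.card]
  rw [h2, Nat.card_eq_fintype_card, ← Fintype.card_subtype]

/-- The number that controls the hitting set. -/
def szN (m w d : ℕ) : ℕ := m * (9 * (w + 1)) ^ (2 ^ d) + m + 2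

theorem sum_eq_Ex {m : ℕ} (f : (Fin m → ZMod 2) → ℝ) : ∑ r, f r = 2 ^ m * Ex f := by
  have h2 : (Fintype.card (Fin m → ZMod 2) : ℝ) = 2 ^ m := by
    simp [ZMod.card]
  rw [Ex, h2]
  field_simp

/-- The hitting property of the list `hset`. -/
theorem hset_hits (d w m : ℕ) (S : Set (Fin m → ZMod 2)) (hS : Certified d w S) :
    ∃ z ∈ S, List.ofFn (fun i => z2b (z i)) ∈ hset (szN m w d) m (d + d) := by
  classical
  obtain ⟨P, n, c, Q, hP, hQ, hsub, hpos, hcount⟩ := hS
  obtain ⟨k, hk0, hk1, hk2⟩ := exists_field (szN m w d) (by simp [szN])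
  haveI : Fact (Nat.Prime 2) := ⟨Nat.prime_two⟩
  let F := GaloisField 2 k
  haveI : Fintype F := Fintype.ofFinite F
  have hcard : Fintype.card F = 2 ^ k := by
    rw [← Nat.card_eq_fintype_card]
    exact GaloisField.card 2 k hk0.ne'
  have hfin : Module.finrank (ZMod 2) F = k := GaloisField.finrank 2 hk0.ne'
  have hbias := powGen_bias (F := F) m
  set ε : ℝ := (m : ℝ) / Fintype.card F with hε
  have hε0 : 0 ≤ ε := by positivity
  set η : ℝ := 1 / ((w : ℝ) + 1) with hη
  have hw1 : (1 : ℝ) ≤ (w : ℝ) + 1 := by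
    have : (0 : ℝ) ≤ w := by positivity
    linarith
  have hη0 : 0 < η := by positivity
  have hη9 : η ≤ 9 := by
    rw [hη, div_le_iff₀ (by positivity)]
    nlinarith
  have hεη : ε ≤ (η / 9) ^ (2 ^ d) := by
    have h1 : (η / 9) = 1 / (9 * ((w : ℝ) + 1)) := by rw [hη]; field_simp
    rw [h1, one_div, inv_pow, hε, hcard, div_le_iff₀ (by positivity)]
    have h2 : ((m : ℝ) * (9 * ((w : ℝ) + 1)) ^ (2 ^ d)) ≤ 2 ^ k := by
      have h3 : m * (9 * (w + 1)) ^ (2 ^ d) ≤ 2 ^ k := by
        refine le_trans ?_ hk1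
        rw [szN, Nat.add_assoc]
        exact Nat.le_add_right _ _
      exact_mod_cast h3
    rw [inv_mul_eq_div, le_div_iff₀ (by positivity)]
    exact_mod_cast h2
  obtain ⟨g, hg⟩ := exists_gen (F := F) m (by
    rw [hcard]
    refine lt_of_lt_of_le ?_ hk1
    rw [szN]
    omega)
  obtain ⟨Ω, i1, i2, Y, hY1, hY2⟩ := viola hε0 hbias d η hη0 hη9 hεη
  -- the combined distribution
  set Y1 : (Fin d → Module.Dual (ZMod 2) F) → Fin m → ZMod 2 := kGen m d g with hY1def
  set Z : (Fin d → Module.Dual (ZMod 2) F) × Ω → Fin m → ZMod 2 :=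
    fun p => Y1 p.1 + Y p.2 with hZ
  have hZ1 : Indep d Z := (kGen_indep (d := d) g hg).add_indep Y
  have hZ2 : Fool d η Z := by
    intro f hf
    have h := hY2.add_indep Y1 f hf
    have e : Ex (fun ω => sg (f (Z ω))) =
        Ex (fun p : Ω × (Fin d → Module.Dual (ZMod 2) F) => sg (f (Y p.1 + Y1 p.2))) := by
      rw [Ex_prod, Ex_prod, Ex_comm]
      simp only [hZ, add_comm]
    rw [e]
    exact h
  have hZ3 : ∀ ω, Z ω ∈ sums (Set.range (powGen (F := F) m)) (d + d) := fun ω =>
    sums_add (kGen_mem m g d ω.1) (hY1 ω.2)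
  -- means
  have hind : ∀ (i : Fin n) (r : Fin m → ZMod 2),
      (Zeros (Q i)).indicator (fun _ => (1 : ℝ)) r = if r ∈ Zeros (Q i) then (1 : ℝ) else 0 := by
    intro i r
    rw [Set.indicator_apply]
  have hval : ∀ r, certVal P c Q r = MvPolynomial.eval (fun i => rv (r i)) P +
      ∑ i, c i * (if r ∈ Zeros (Q i) then (1 : ℝ) else 0) := by
    intro r
    simp only [certVal, hind]
    rfl
  have hEP : Ex (fun ω => MvPolynomial.eval (fun i => rv (Z ω i)) P) =
      Ex (fun r : Fin m → ZMod 2 => MvPolynomial.eval (fun i => rv (r i)) P) :=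
    hZ1.Ex_eq (eval_mem_lowDeg P hP)
  rw [sum_eq_Ex] at hpos hcount
  have h2m : (0 : ℝ) < 2 ^ m := by positivity
  have hE0 : 0 < Ex (certVal P c Q) := (pos_iff_pos_of_mul_pos hpos).1 h2m
  have hEc : ∑ i, |c i| ≤ w * Ex (certVal P c Q) := by
    have h3 : (2 : ℝ) ^ m * ∑ i, |c i| ≤ 2 ^ m * (w * Ex (certVal P c Q)) := by
      calc (2 : ℝ) ^ m * ∑ i, |c i| ≤ w * (2 ^ m * Ex (certVal P c Q)) := hcount
        _ = _ := by ring
    exact le_of_mul_le_mul_left h3 h2m
  have hEZ : 0 < Ex (fun ω => certVal P c Q (Z ω)) := by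
    have e1 : Ex (fun ω => certVal P c Q (Z ω)) =
        Ex (fun r : Fin m → ZMod 2 => MvPolynomial.eval (fun i => rv (r i)) P) +
        ∑ i, c i * Ex (fun ω => if Z ω ∈ Zeros (Q i) then (1 : ℝ) else 0) := by
      simp only [hval]
      rw [Ex_add, hEP, Ex_sum]
      simp only [Ex_mul]
    have e2 : Ex (certVal P c Q) =
        Ex (fun r : Fin m → ZMod 2 => MvPolynomial.eval (fun i => rv (r i)) P) +
        ∑ i, c i * Ex (fun r : Fin m → ZMod 2 => if r ∈ Zeros (Q i) then (1 : ℝ) else 0) := by
      have : certVal P c Q = fun r => MvPolynomial.eval (fun i => rv (r i)) P +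
        ∑ i, c i * (if r ∈ Zeros (Q i) then (1 : ℝ) else 0) := funext hval
      rw [this, Ex_add, Ex_sum]
      simp only [Ex_mul]
    have e3 : ∑ i, c i * Ex (fun r : Fin m → ZMod 2 => if r ∈ Zeros (Q i) then (1 : ℝ) else 0) -
        ∑ i, c i * Ex (fun ω => if Z ω ∈ Zeros (Q i) then (1 : ℝ) else 0) ≤
        η * ∑ i, |c i| := by
      rw [← Finset.sum_sub_distrib, Finset.mul_sum]
      refine Finset.sum_le_sum fun i _ => ?_
      have h4 := fool_zeros hZ2 (Q i) (hQ i)
      rw [abs_sub_comm] at h4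
      rw [← mul_sub]
      refine (le_abs_self _).trans ?_
      rw [abs_mul, mul_comm]
      exact mul_le_mul_of_nonneg_right h4 (abs_nonneg _)
    have e4 : η * ∑ i, |c i| ≤ η * (w * Ex (certVal P c Q)) :=
      mul_le_mul_of_nonneg_left hEc hη0.le
    have e5 : η * (w * Ex (certVal P c Q)) < Ex (certVal P c Q) := by
      rw [← mul_assoc]
      have : η * w < 1 := by
        rw [hη, one_div, inv_mul_lt_iff₀ (by positivity)]
        linarith
      calc η * w * Ex (certVal P c Q) < 1 * Ex (certVal P c Q) :=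
            mul_lt_mul_of_pos_right this hE0
        _ = _ := one_mul _
    linarith
  obtain ⟨ω, hω⟩ := exists_pos_of_Ex hEZ
  exact ⟨Z ω, hsub _ hω, hk2 m hfin (d + d) _ (hZ3 ω)⟩

/-- A zero set of density at least `1 / w` is certified. -/
theorem certified_zeros {d w m : ℕ} {S : Set (Fin m → ZMod 2)}
    {Q : Set (MvPolynomial (Fin m) (ZMod 2))}
    (hQ : ∀ q ∈ Q, q.totalDegree ≤ d) (hS : Zeros Q ⊆ S)
    (hd : 2 ^ m ≤ w * Nat.card (Zeros Q)) :
    Certified d w S := by
  classical
  have hval : ∀ r, certVal (0 : MvPolynomial (Fin m) ℝ) (fun _ : Fin 1 => (1 : ℝ))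
      (fun _ => Q) r = if r ∈ Zeros Q then (1 : ℝ) else 0 := by
    intro r
    simp [certVal, Set.indicator_apply]
  have hsum : ∑ r, certVal (0 : MvPolynomial (Fin m) ℝ) (fun _ : Fin 1 => (1 : ℝ))
      (fun _ => Q) r = Nat.card (Zeros Q) := by
    simp only [hval]
    rw [sum_eq_Ex, Ex_indicator]
    field_simp
  refine ⟨0, 1, fun _ => 1, fun _ => Q, by simp, fun _ => hQ, ?_, ?_, ?_⟩
  · intro r hr
    rw [hval] at hr
    by_contra hcon
    rw [if_neg (fun h => hcon (hS h))] at hr
    exact lt_irrefl _ hr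
  · rw [hsum]
    have : 0 < Nat.card (Zeros Q) := by
      rcases Nat.eq_zero_or_pos (Nat.card (Zeros Q)) with h | h
      · rw [h] at hd
        simp at hd
      · exact h
    exact_mod_cast this
  · rw [hsum]
    simp only [abs_one, Finset.sum_const, Finset.card_univ, Fintype.card_fin, one_smul, mul_one]
    exact_mod_cast hd

/-- Every listed string is the string of bits of a vector. -/
theorem exists_bits {m : ℕ} {r : List Bool} (hr : r.length = m) :
    ∃ z : Fin m → ZMod 2, bits z = r := by
  subst hr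
  refine ⟨fun i => b2z r[i], ?_⟩
  apply List.ext_getElem
  · simp [bits]
  · intro n h1 h2
    simp only [bits, List.getElem_ofFn]
    exact z2b_b2z _

theorem length_bits {m : ℕ} (z : Fin m → ZMod 2) : (bits z).length = m := by simp [bits]

end Pool.Agent.Helper51.ZP
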