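import Pool.Agent.Helper51.ZP.Lfsr

/-!
# The hitting set is computable in polynomial time
-/

namespace Pool.Agent.Helper51.ZP

open Pool.Agent.Helper81.CC

variable {α : Type} [ToData α]

theorem sz_bools (l : List Bool) : sz l ≤ 4 * l.length + 1 := by
  induction l with
  | nil => simp
  | cons b l ih =>
    have := sz_bool b
    simp only [sz_cons, List.length_cons]
    omega

theorem PT_par {f : α → List Bool} (hf : PolyTime f) : PolyTime (fun a => par (f a)) := by
  have h1 : PolyTime (fun a => (f a).count true % 2) :=
    PolyTime.mod (PolyTime.count (by fun_prop) hf) (by fun_prop)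
  exact PolyTime.decide_eq h1 (by fun_prop)

theorem PT_stp {c s : α → List Bool} (hc : PolyTime c) (hs : PolyTime s) :
    PolyTime (fun a => stp (c a) (s a)) := by
  have h1 : PolyTime (fun a => List.zipWith (fun a b => a && b) (c a) (s a)) :=
    PolyTime.zipWith (f := fun _ a b => a && b) (by fun_prop) hc hs
  exact PolyTime.append (PolyTime.tail hs) (PolyTime.list_cons (PT_par h1) (by fun_prop))

theorem length_iter_stp (c s : List Bool) (k : ℕ) : ((stp c)^[k] s).length ≤ s.length + 1 := by
  induction k with
  | zero => simp
  | succ k ih =>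
    rw [Function.iterate_succ_apply']
    have : (stp c ((stp c)^[k] s)).length ≤ max ((stp c)^[k] s).length 1 := by
      rw [stp, List.length_append, List.length_tail]
      simp only [List.length_singleton]
      omega
    omega

theorem PT_lfsr {c s : α → List Bool} {m : α → ℕ} (hc : PolyTime c) (hs : PolyTime s)
    (hm : PolyTime m) : PolyTime (fun a => lfsr (c a) (s a) (m a)) := by
  have h1 : PolyTime (fun z : (α × ℕ) => (stp (c z.1))^[z.2] (s z.1)) := by
    refine PolyTime.iterate_bd (n := fun z : α × ℕ => z.2) (s0 := fun z => s z.1)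
      (step := fun z t => stp (c z.1) t) (by fun_prop) (by fun_prop)
      (PT_stp (by fun_prop) (by fun_prop)) (B := fun z => 4 * (sz (s z.1) + 1) + 1)
      (((PBd.const 4).mul ((PolyTime.bd (f := fun z : α × ℕ => s z.1) (by fun_prop)).add
        (PBd.const 1))).add (PBd.const 1)) ?_
    intro a k _
    have h2 := sz_bools ((stp (c a.1))^[k] (s a.1))
    have h3 := length_iter_stp (c a.1) (s a.1) k
    have h4 := length_le_sz (s a.1)
    show sz ((stp (c a.1))^[k] (s a.1)) ≤ _
    omega
  exact PolyTime.list_map (f := fun a i => ((stp (c a))^[i] (s a)).headD false)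
    (by fun_prop) (PolyTime.headD h1 (by fun_prop))

theorem PT_dbl {l : α → List (List Bool)} (hl : PolyTime l) : PolyTime (fun a => dbl (l a)) :=
  PolyTime.append (PolyTime.list_map (f := fun _ v => false :: v) hl (by fun_prop))
    (PolyTime.list_map (f := fun _ v => true :: v) hl (by fun_prop))

theorem sz_list_le {β : Type} [ToData β] (B : ℕ) : ∀ l : List β, (∀ b ∈ l, sz b ≤ B) →
    sz l ≤ l.length * (B + 1) + 1
  | [], _ => by simp
  | b :: l, h => by
    have h1 := h b (by simp)
    have h2 := sz_list_le B l fun c hc => h c (by simp [hc])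
    simp only [sz_cons, List.length_cons]
    have : (l.length + 1) * (B + 1) = l.length * (B + 1) + (B + 1) := by ring
    omega

theorem PT_vecs {N : α → ℕ} (hN : PolyTime N) : PolyTime (fun a => vecs (N a)) := by
  refine PolyTime.iterate_bd (n := N) (s0 := fun _ => [[]])
    (step := fun a (l : List (List Bool)) => if l.length < N a then dbl l else l) hN
    (by fun_prop) (PolyTime.itep (by fun_prop) (PT_dbl (by fun_prop)) (by fun_prop))
    (B := fun a => (2 * N a + 1) * (4 * N a + 1 + 1) + 1) ?_ ?_
  · exact (((((PBd.const 2).mul (PBd.nat hN)).add (PBd.const 1)).mul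
      ((((PBd.const 4).mul (PBd.nat hN)).add (PBd.const 1)).add (PBd.const 1)))).add (PBd.const 1)
  · intro a i hi
    obtain ⟨k, hk, h1, h2, -, h4⟩ := iter_vecs (N a) i
    refine (sz_list_le (4 * N a + 1) _ ?_).trans ?_
    · intro b hb
      have h5 := (h1 b).1 hb
      have h6 := sz_bools b
      omega
    · rw [h2]
      exact Nat.add_le_add_right (Nat.mul_le_mul_right _ h4) _

theorem PT_gens {N m : α → ℕ} (hN : PolyTime N) (hm : PolyTime m) :
    PolyTime (fun a => gens (N a) (m a)) := by
  refine PolyTime.flatMap (f := fun a c => (vecs (N a)).map fun s => lfsr c s (m a))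
    (PT_vecs hN) ?_
  refine PolyTime.list_map (f := fun (z : α × List Bool) s => lfsr z.2 s (m z.1))
    (PT_vecs (by fun_prop)) ?_
  exact PT_lfsr (by fun_prop) (by fun_prop) (by fun_prop)

theorem PT_hset {N m : α → ℕ} (hN : PolyTime N) (hm : PolyTime m) (D : ℕ) :
    PolyTime (fun a => hset (N a) (m a) D) := by
  induction D with
  | zero => exact PolyTime.list_cons (PolyTime.replicate hm (by fun_prop)) (by fun_prop)
  | succ D ih =>
    refine PolyTime.flatMap (f := fun a y =>
      (gens (N a) (m a)).map fun w => List.zipWith (fun a b => Bool.xor a b) y w) ih ?_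
    refine PolyTime.list_map (f := fun (z : α × List Bool) w =>
      List.zipWith (fun a b => Bool.xor a b) z.2 w) (PT_gens (by fun_prop) (by fun_prop)) ?_
    exact PolyTime.zipWith (f := fun _ a b => Bool.xor a b) (by fun_prop) (by fun_prop)
      (by fun_prop)

end Pool.Agent.Helper51.ZP
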