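import Pool.Agent.Helper51.ZP.Defs

/-!
# Randomized machines with a small coin-dependent memory
-/

namespace Pool.Agent.Helper51.ZP

open Pool.Agent.Helper81.CC Computability

/-- A randomized machine that works in stages and carries a string (its configuration) from one
stage to the next: `step (x, (c, r))` is the next configuration, on the input `x`, from the
configuration `c` with the fresh coins `r` of this stage. -/
structure StepMachine where
  /-- the transition function -/
  step : List Bool × (List Bool × List Bool) → List Bool
  /-- it is computable in polynomial time -/
  poly : PolyTimeComputable
    (fun z : List Bool × (List Bool × List Bool) => pairEnc z.1 (pairEnc z.2.1 z.2.2))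
    (fun y : List Bool => y) step
  /-- the number of coins of a stage, as a polynomial in the length of the input -/
  m : Polynomial ℕ
  /-- the number of stages, as a polynomial in the length of the input -/
  T : Polynomial ℕ

/-- The number of coins of one stage on the input `x`. -/
def StepMachine.coins (A : StepMachine) (x : List Bool) : ℕ := A.m.eval x.length

/-- The number of stages on the input `x`. -/
def StepMachine.stages (A : StepMachine) (x : List Bool) : ℕ := A.T.eval x.length

/-- The configuration on the input `x` after the blocks `l` of coins have been used, one for each
stage. The initial configuration is the empty string. -/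
def StepMachine.conf (A : StepMachine) (x : List Bool)
    (l : List (Fin (A.coins x) → ZMod 2)) : List Bool :=
  l.foldl (fun c r => A.step (x, (c, bits r))) []

/-- The configurations that occur on the input `x`. -/
def StepMachine.reach (A : StepMachine) (x : List Bool) : Set (List Bool) :=
  {c | ∃ l : List (Fin (A.coins x) → ZMod 2), l.length ≤ A.stages x ∧ A.conf x l = c}

/-- `L` is decided with one-sided error by a randomized polynomial-time machine in stages such
that, on the inputs in `L`, polynomially many configurations occur, they have polynomial length,
and every transition that is not rare is certified: for every polynomial `p` there is a polynomial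
`v` such that, from each configuration `c` that occurs, for each `c'` that is the next
configuration with probability at least `1 / p |x|`, the fresh coins that lead to `c'` form a
`(d, v |x|)`-certified set.
A run accepts if it ends in the configuration `1`; for `x ∉ L` no run accepts, for `x ∈ L` at
least half of the runs accept. -/
def InSmallMemory (d : ℕ) (L : Set (List Bool)) : Prop :=
  ∃ (A : StepMachine) (w : Polynomial ℕ),
    (∀ x, x ∉ L → ∀ ρ : Fin (A.stages x) → Fin (A.coins x) → ZMod 2,
      A.conf x (List.ofFn ρ) ≠ [true]) ∧
    (∀ x ∈ L, 2 ^ (A.coins x * A.stages x) ≤ 2 * Nat.card
      {ρ : Fin (A.stages x) → Fin (A.coins x) → ZMod 2 // A.conf x (List.ofFn ρ) = [true]}) ∧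
    (∀ x ∈ L, (A.reach x).ncard ≤ w.eval x.length ∧
      ∀ c ∈ A.reach x, c.length ≤ w.eval x.length) ∧
    (∀ p : Polynomial ℕ, ∃ v : Polynomial ℕ, ∀ x ∈ L, ∀ c ∈ A.reach x, ∀ c' : List Bool,
      2 ^ A.coins x ≤ p.eval x.length *
        Nat.card {r : Fin (A.coins x) → ZMod 2 // A.step (x, (c, bits r)) = c'} →
      Certified d (v.eval x.length)
        {r : Fin (A.coins x) → ZMod 2 | A.step (x, (c, bits r)) = c'})

end Pool.Agent.Helper51.ZP
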