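import Mathlib

/-!
# Functions of bounded degree on `F_2^ι` (through derivatives)
-/

namespace Pool.Agent.Helper51.ZP

open Finset

/-- `f` has degree at most `d`: all derivatives of order `d + 1` vanish. -/
def DegLE {G : Type} [Add G] : ℕ → (G → ZMod 2) → Prop
  | 0, f => ∀ x y, f x = f y
  | d + 1, f => ∀ h, DegLE d (fun x => f (x + h) + f x)

section
variable {G : Type} [AddCommGroup G]

theorem DegLE.shift : ∀ {d : ℕ} {f : G → ZMod 2}, DegLE d f → ∀ a, DegLE d (fun x => f (x + a))
  | 0, f, h, a => fun x y => h _ _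
  | d + 1, f, h, a => fun k => by
    have h1 := (h k).shift a
    have e : (fun x => f (x + a + k) + f (x + a)) =
        (fun x => f (x + k + a) + f (x + a)) := by
      funext x; rw [add_right_comm]
    rw [e] at h1
    exact h1

theorem DegLE.add : ∀ {d : ℕ} {f g : G → ZMod 2}, DegLE d f → DegLE d g →
    DegLE d (fun x => f x + g x)
  | 0, f, g, hf, hg => fun x y => by simp only [hf x y, hg x y]
  | d + 1, f, g, hf, hg => fun k => by
    have h1 := (hf k).add (hg k)
    have e : (fun x => f (x + k) + f x + (g (x + k) + g x)) =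
        (fun x => f (x + k) + g (x + k) + (f x + g x)) := by
      funext x; ring
    rw [e] at h1
    exact h1

theorem DegLE.const : ∀ {d : ℕ} (c : ZMod 2), DegLE d (fun _ : G => c)
  | 0, c => fun x y => rfl
  | d + 1, c => fun k => DegLE.const (c + c)

theorem DegLE.congr {d : ℕ} {f g : G → ZMod 2} (h : DegLE d f) (e : ∀ x, f x = g x) :
    DegLE d g := by
  have : f = g := funext e
  rwa [← this]

theorem DegLE.const_mul : ∀ {d : ℕ} {f : G → ZMod 2} (c : ZMod 2), DegLE d f →
    DegLE d (fun x => c * f x)
  | 0, f, c, h => fun x y => by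
    show c * f x = c * f y
    rw [h x y]
  | d + 1, f, c, h => fun k => ((h k).const_mul c).congr fun x => by ring

theorem DegLE.of_zero {d : ℕ} {f : G → ZMod 2} (h : DegLE 0 f) : DegLE d f :=
  (DegLE.const (f 0)).congr fun x => h 0 x

theorem DegLE.succ : ∀ {d : ℕ} {f : G → ZMod 2}, DegLE d f → DegLE (d + 1) f
  | 0, f, h => fun k => by
    intro x y
    show f (x + k) + f x = f (y + k) + f y
    rw [h (x + k) (y + k), h x y]
  | d + 1, f, h => fun k => (h k).succ

theorem DegLE.mono {d e : ℕ} {f : G → ZMod 2} (h : DegLE d f) (hde : d ≤ e) : DegLE e f := by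
  induction hde with
  | refl => exact h
  | step _ ih => exact ih.succ

theorem DegLE.mul_aux : ∀ (n a b : ℕ), a + b = n → ∀ {f g : G → ZMod 2}, DegLE a f → DegLE b g →
    DegLE n (fun x => f x * g x)
  | n, 0, b, hn, f, g, hf, hg => by
    have h1 : b = n := by omega
    subst h1
    exact (hg.const_mul (f 0)).congr fun x => by rw [hf 0 x]
  | n, a + 1, 0, hn, f, g, hf, hg => by
    have h1 : a + 1 = n := by omega
    subst h1
    exact (hf.const_mul (g 0)).congr fun x => by rw [hg 0 x, mul_comm]
  | 0, a + 1, b + 1, hn, f, g, hf, hg => by omega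
  | n + 1, a + 1, b + 1, hn, f, g, hf, hg => fun k => by
    have h1 := DegLE.mul_aux n a (b + 1) (by omega) (hf k) (hg.shift k)
    have h2 := DegLE.mul_aux n (a + 1) b (by omega) hf (hg k)
    exact (h1.add h2).congr fun x => by
      have h4 : (2 : ZMod 2) = 0 := by decide
      linear_combination (f x * g (x + k)) * h4

theorem DegLE.mul {a b : ℕ} {f g : G → ZMod 2} (hf : DegLE a f) (hg : DegLE b g) :
    DegLE (a + b) (fun x => f x * g x) := DegLE.mul_aux _ a b rfl hf hg

theorem DegLE.pow {a : ℕ} {f : G → ZMod 2} (hf : DegLE a f) (n : ℕ) :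
    DegLE (n * a) (fun x => f x ^ n) := by
  induction n with
  | zero => exact (DegLE.const 1).congr fun x => by simp
  | succ n ih =>
    have := ih.mul hf
    rw [← Nat.succ_mul] at this
    exact this.congr fun x => by rw [pow_succ]

theorem DegLE.sum {ι : Type*} (s : Finset ι) {d : ℕ} (f : ι → G → ZMod 2)
    (h : ∀ i ∈ s, DegLE d (f i)) : DegLE d (fun x => ∑ i ∈ s, f i x) := by
  classical
  induction s using Finset.induction_on with
  | empty => exact (DegLE.const 0).congr fun x => by simp
  | insert a s ha ih =>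
    exact ((h a (mem_insert_self _ _)).add (ih fun i hi => h i (mem_insert_of_mem hi))).congr
      fun x => by rw [sum_insert ha]

theorem DegLE.prod {ι : Type*} (s : Finset ι) (d : ι → ℕ) (f : ι → G → ZMod 2)
    (h : ∀ i ∈ s, DegLE (d i) (f i)) : DegLE (∑ i ∈ s, d i) (fun x => ∏ i ∈ s, f i x) := by
  classical
  induction s using Finset.induction_on with
  | empty => exact (DegLE.const 1).congr fun x => by simp
  | insert a s ha ih =>
    rw [sum_insert ha]
    exact ((h a (mem_insert_self _ _)).mul (ih fun i hi => h i (mem_insert_of_mem hi))).congr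
      fun x => by rw [prod_insert ha]

end

theorem DegLE.coord {ι : Type} (i : ι) : DegLE 1 (fun x : ι → ZMod 2 => x i) := fun h => by
  intro x y
  have h2 : ∀ a b : ZMod 2, a + b + a = b := by decide
  simp only [Pi.add_apply, h2]

/-- A polynomial of total degree at most `d` is a function of degree at most `d`. -/
theorem DegLE.eval {ι : Type} {d : ℕ} (p : MvPolynomial ι (ZMod 2)) (hp : p.totalDegree ≤ d) :
    DegLE d (fun x : ι → ZMod 2 => MvPolynomial.eval x p) := by
  refine (DegLE.sum p.support (fun s x => p.coeff s * ∏ i ∈ s.support, x i ^ s i) ?_).congr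
    fun x => (MvPolynomial.eval_eq x p).symm
  intro s hs
  refine DegLE.const_mul _ ?_
  refine (DegLE.prod s.support (fun i => s i * 1) _ fun i _ => (DegLE.coord i).pow (s i)).mono ?_
  refine le_trans ?_ hp
  refine le_trans ?_ (MvPolynomial.le_totalDegree hs)
  simp [Finsupp.sum]

end Pool.Agent.Helper51.ZP
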