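import Pool.Agent.Helper51.ZP.Viola

/-!
# Hitting sets from fooling distributions; the powering construction
-/

namespace Pool.Agent.Helper51.ZP

open Finset

section
variable {ι : Type} [Fintype ι] [DecidableEq ι]

/-- A distribution which fools degree `d` hits every set that has a degree-`d` certificate. -/
theorem hit_certificate {Ω : Type} [Fintype Ω] [Nonempty Ω] {d : ℕ} {η : ℝ}
    {Y : Ω → ι → ZMod 2} (hY : Fool d η Y) {κ : Type*} (s : Finset κ) (c : κ → ℝ)
    (f : κ → (ι → ZMod 2) → ZMod 2) (hf : ∀ j ∈ s, DegLE d (f j))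
    (h : η * ∑ j ∈ s, |c j| < Ex (fun x : ι → ZMod 2 => ∑ j ∈ s, c j * sg (f j x))) :
    ∃ ω, 0 < ∑ j ∈ s, c j * sg (f j (Y ω)) := by
  apply exists_pos_of_Ex
  rw [Ex_sum] at h ⊢
  simp only [Ex_mul] at h ⊢
  have h1 : ∑ j ∈ s, c j * Ex (fun x : ι → ZMod 2 => sg (f j x)) -
      ∑ j ∈ s, c j * Ex (fun ω => sg (f j (Y ω))) ≤ η * ∑ j ∈ s, |c j| := by
    rw [← sum_sub_distrib, mul_sum]
    refine sum_le_sum fun j hj => ?_
    have h2 := hY (f j) (hf j hj)
    rw [abs_sub_comm] at h2
    calc c j * Ex (fun x : ι → ZMod 2 => sg (f j x)) - c j * Ex (fun ω => sg (f j (Y ω)))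
        = c j * (Ex (fun x : ι → ZMod 2 => sg (f j x)) - Ex (fun ω => sg (f j (Y ω)))) := by ring
      _ ≤ |c j * (Ex (fun x : ι → ZMod 2 => sg (f j x)) - Ex (fun ω => sg (f j (Y ω))))| :=
          le_abs_self _
      _ = |c j| * |Ex (fun x : ι → ZMod 2 => sg (f j x)) - Ex (fun ω => sg (f j (Y ω)))| :=
          abs_mul _ _
      _ ≤ |c j| * η := mul_le_mul_of_nonneg_left h2 (abs_nonneg _)
      _ = η * |c j| := mul_comm _ _
  linarith

/-- The average of the phases of an additively closed family. -/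
theorem sum_phases {V : Finset ((ι → ZMod 2) → ZMod 2)}
    (hV : ∀ f ∈ V, ∀ g ∈ V, (fun x => f x + g x) ∈ V) {x : ι → ZMod 2}
    (hx : ∃ g ∈ V, g x = 1) : ∑ f ∈ V, sg (f x) = 0 := by
  obtain ⟨g, hg, hgx⟩ := hx
  have h1 : ∑ f ∈ V, sg (f x) = ∑ f ∈ V, sg (f x + g x) := by
    refine Finset.sum_nbij' (fun f => fun y => f y + g y) (fun f => fun y => f y + g y)
      (fun f hf => hV f hf g hg) (fun f hf => hV f hf g hg) ?_ ?_ ?_
    · intro f _
      funext y
      rw [add_assoc, zmod2_self, add_zero]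
    · intro f _
      funext y
      rw [add_assoc, zmod2_self, add_zero]
    · intro f _
      simp only
      rw [add_assoc, zmod2_self, add_zero]
  simp only [sg_add, hgx, sg_one, ← sum_mul] at h1
  linarith

open Classical in
/-- The common zero set of functions of degree `≤ d` has the indicator function as certificate. -/
theorem exists_phases (d : ℕ) (Q : Set ((ι → ZMod 2) → ZMod 2)) (hQ : ∀ q ∈ Q, DegLE d q) :
    ∃ V : Finset ((ι → ZMod 2) → ZMod 2), V.Nonempty ∧ (∀ f ∈ V, DegLE d f) ∧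
      ∀ x, ∑ f ∈ V, sg (f x) = if (∀ q ∈ Q, q x = 0) then (V.card : ℝ) else 0 := by
  set V : Finset ((ι → ZMod 2) → ZMod 2) :=
    univ.filter (fun f => DegLE d f ∧ ∀ x, (∀ q ∈ Q, q x = 0) → f x = 0) with hV
  have hmem : ∀ f, f ∈ V ↔ DegLE d f ∧ ∀ x, (∀ q ∈ Q, q x = 0) → f x = 0 := by
    intro f; simp [hV]
  refine ⟨V, ⟨fun _ => 0, (hmem _).2 ⟨DegLE.const 0, fun _ _ => rfl⟩⟩,
    fun f hf => ((hmem f).1 hf).1, fun x => ?_⟩
  split_ifs with h
  · have : ∀ f ∈ V, sg (f x) = 1 := fun f hf => by rw [((hmem f).1 hf).2 x h, sg_zero]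
    rw [sum_congr rfl this]
    simp
  · apply sum_phases
    · intro f hf g hg
      rw [hmem] at hf hg ⊢
      refine ⟨hf.1.add hg.1, fun y hy => ?_⟩
      rw [hf.2 y hy, hg.2 y hy, add_zero]
    · push Not at h
      obtain ⟨q, hq, hqx⟩ := h
      exact ⟨q, (hmem q).2 ⟨hQ q hq, fun y hy => hy q hq⟩, (zmod2_cases _).resolve_left hqx⟩

end

/-! ### The powering construction -/

section
variable {F : Type} [Field F] [Fintype F] [DecidableEq F] [Algebra (ZMod 2) F]

noncomputable instance : Fintype (Module.Dual (ZMod 2) F) :=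
  Fintype.ofInjective (fun φ : Module.Dual (ZMod 2) F => (φ : F → ZMod 2)) DFunLike.coe_injective

/-- the generator -/
noncomputable def powGen (m : ℕ) (p : F × Module.Dual (ZMod 2) F) : Fin m → ZMod 2 :=
  fun i => p.2 (p.1 ^ (i : ℕ))

theorem Ex_dual (β : F) :
    Ex (fun φ : Module.Dual (ZMod 2) F => sg (φ β)) = if β = 0 then 1 else 0 := by
  split_ifs with h
  · subst h
    simp [Ex_const]
  · obtain ⟨ψ, hψ⟩ : ∃ ψ : Module.Dual (ZMod 2) F, ψ β ≠ 0 := by
      by_contra hcon
      push Not at hcon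
      exact h ((Module.forall_dual_apply_eq_zero_iff (ZMod 2) β).1 hcon)
    have hψ1 : ψ β = 1 := (zmod2_cases _).resolve_left hψ
    have h1 := Ex_equiv (Equiv.addRight ψ) (fun φ : Module.Dual (ZMod 2) F => sg (φ β))
    have h2 : (fun φ : Module.Dual (ZMod 2) F => sg ((Equiv.addRight ψ φ) β)) =
        fun φ => (-1) * sg (φ β) := by
      funext φ
      simp only [Equiv.coe_addRight, LinearMap.add_apply, sg_add, hψ1, sg_one]
      ring
    rw [h2, Ex_mul] at h1
    linarith

theorem powGen_bias (m : ℕ) :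
    Bias ((m : ℝ) / Fintype.card F) (powGen (F := F) m) := by
  intro a ha
  set P : Polynomial (ZMod 2) := ∑ i : Fin m, Polynomial.C (a i) * Polynomial.X ^ (i : ℕ) with hP
  have hcoeff : ∀ j : Fin m, P.coeff j = a j := by
    intro j
    rw [hP, Polynomial.finset_sum_coeff]
    simp only [Polynomial.coeff_C_mul, Polynomial.coeff_X_pow]
    rw [sum_eq_single j]
    · simp
    · intro b _ hb
      have : ¬ ((j : ℕ) = (b : ℕ)) := fun h => hb (Fin.ext h.symm)
      simp [this]
    · simp
  have hP0 : P ≠ 0 := by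
    intro h
    apply ha
    funext j
    rw [← hcoeff j, h]
    simp
  have hdeg : P.natDegree ≤ m := by
    rw [hP]
    refine Polynomial.natDegree_sum_le_of_forall_le _ _ fun i _ => ?_
    refine (Polynomial.natDegree_C_mul_X_pow_le _ _).trans ?_
    exact i.2.le
  have e1 : ∀ p : F × Module.Dual (ZMod 2) F, a ⬝ᵥ powGen m p = p.2 (Polynomial.aeval p.1 P) := by
    rintro ⟨α, φ⟩
    simp only [hP, map_sum, map_mul, Polynomial.aeval_C, map_pow, Polynomial.aeval_X, dotProduct,
      powGen]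
    refine sum_congr rfl fun i _ => ?_
    rw [← Algebra.smul_def, map_smul, smul_eq_mul]
  have e2 : Ex (fun p : F × Module.Dual (ZMod 2) F => sg (a ⬝ᵥ powGen m p)) =
      ((univ.filter (fun α : F => Polynomial.aeval α P = 0)).card : ℝ) / Fintype.card F := by
    rw [Ex_prod]
    simp only [e1, Ex_dual]
    rw [Ex, sum_ite]
    simp
  rw [e2, abs_of_nonneg (by positivity)]
  refine div_le_div_of_nonneg_right ?_ (by positivity)
  have hinj : Function.Injective (algebraMap (ZMod 2) F) := FaithfulSMul.algebraMap_injective _ _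
  have h3 : (P.map (algebraMap (ZMod 2) F)) ≠ 0 := (Polynomial.map_ne_zero_iff hinj).2 hP0
  have h4 : (univ.filter (fun α : F => Polynomial.aeval α P = 0)) ⊆
      (P.map (algebraMap (ZMod 2) F)).roots.toFinset := by
    intro α hα
    rw [mem_filter] at hα
    rw [Multiset.mem_toFinset, Polynomial.mem_roots h3, Polynomial.IsRoot.def,
      Polynomial.eval_map_algebraMap]
    exact hα.2
  have h5 : (univ.filter (fun α : F => Polynomial.aeval α P = 0)).card ≤ m :=
    (card_le_card h4).trans ((Multiset.toFinset_card_le _).trans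
      ((Polynomial.card_roots' _).trans ((Polynomial.natDegree_map_le).trans hdeg)))
  exact_mod_cast h5

/-- Every sample satisfies a linear recurrence of order `k = [F : F_2]`. -/
theorem powGen_rec {k : ℕ} (hk : Module.finrank (ZMod 2) F = k) (α : F) :
    ∃ c : ℕ → ZMod 2, ∀ (φ : Module.Dual (ZMod 2) F) (i : ℕ),
      φ (α ^ (i + k)) = ∑ j ∈ range k, c j * φ (α ^ (i + j)) := by
  have hint : IsIntegral (ZMod 2) α := IsIntegral.of_finite _ _
  set μ := minpoly (ZMod 2) α with hμ
  have hmon : μ.Monic := minpoly.monic hint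
  have hdeg : μ.natDegree ≤ k := by
    rw [← hk]; exact minpoly.natDegree_le α
  set R := μ * Polynomial.X ^ (k - μ.natDegree) with hR
  have hRmon : R.Monic := hmon.mul (Polynomial.monic_X_pow _)
  have hRdeg : R.natDegree = k := by
    rw [hR, hmon.natDegree_mul (Polynomial.monic_X_pow _), Polynomial.natDegree_X_pow]
    omega
  have hRα : Polynomial.aeval α R = 0 := by
    rw [hR, map_mul, minpoly.aeval, zero_mul]
  refine ⟨fun j => R.coeff j, fun φ i => ?_⟩
  have h1 : Polynomial.aeval α R = ∑ j ∈ range (k + 1), R.coeff j • α ^ j := by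
    rw [Polynomial.aeval_eq_sum_range, hRdeg]
  rw [h1, sum_range_succ] at hRα
  have h2 : R.coeff k = 1 := by
    have := hRmon.coeff_natDegree
    rwa [hRdeg] at this
  rw [h2, one_smul] at hRα
  have h3 : φ ((∑ j ∈ range k, R.coeff j • α ^ j + α ^ k) * α ^ i) = 0 := by
    rw [hRα, zero_mul, map_zero]
  rw [add_mul, map_add, sum_mul, map_sum] at h3
  have h4 : ∀ j ∈ range k, φ (R.coeff j • α ^ j * α ^ i) = R.coeff j * φ (α ^ (i + j)) := by
    intro j _
    rw [smul_mul_assoc, map_smul, smul_eq_mul, ← pow_add, add_comm j i]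
  rw [sum_congr rfl h4, ← pow_add, add_comm k i] at h3
  have h5 : ∀ a b : ZMod 2, a + b = 0 → b = a := by decide
  exact h5 _ _ h3

end

end Pool.Agent.Helper51.ZP
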