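import Pool.Agent.Helper51.ZP.Hit
import Pool.Agent.Helper31.TMSim

/-!
# Linear feedback shift registers on lists of bits
-/

namespace Pool.Agent.Helper51.ZP

open Pool.Agent.Helper81.CC

/-- parity of a list of bits -/
def par (l : List Bool) : Bool := decide (l.count true % 2 = 1)

/-- one step of a linear feedback shift register with coefficients `c` -/
def stp (c s : List Bool) : List Bool := s.tail ++ [par (List.zipWith (fun a b => a && b) c s)]

/-- the first `m` output bits -/
def lfsr (c s : List Bool) (m : ℕ) : List Bool :=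
  (List.range m).map (fun i => ((stp c)^[i] s).headD false)

/-- doubling -/
def dbl (l : List (List Bool)) : List (List Bool) :=
  l.map (fun v => false :: v) ++ l.map (fun v => true :: v)

/-- all vectors of length `k` for the least `k` with `N ≤ 2 ^ k` -/
def vecs (N : ℕ) : List (List Bool) := (fun l => if l.length < N then dbl l else l)^[N] [[]]

/-- all outputs -/
def gens (N m : ℕ) : List (List Bool) :=
  (vecs N).flatMap fun c => (vecs N).map fun s => lfsr c s m

/-- all sums of `D` outputs -/
def hset (N m : ℕ) : ℕ → List (List Bool)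
  | 0 => [List.replicate m false]
  | D + 1 => (hset N m D).flatMap fun y =>
      (gens N m).map fun w => List.zipWith (fun a b => Bool.xor a b) y w

/-! ### Correctness -/

/-- bit of an element of `F_2` -/
def z2b (z : ZMod 2) : Bool := decide (z = 1)

/-- element of `F_2` of a bit -/
def b2z (b : Bool) : ZMod 2 := if b then 1 else 0

@[simp] theorem b2z_z2b (z : ZMod 2) : b2z (z2b z) = z := by revert z; decide

@[simp] theorem z2b_b2z (b : Bool) : z2b (b2z b) = b := by revert b; decide

theorem z2b_add (a b : ZMod 2) : z2b (a + b) = Bool.xor (z2b a) (z2b b) := by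
  revert a b; decide

theorem z2b_mul (a b : ZMod 2) : z2b (a * b) = (z2b a && z2b b) := by
  revert a b; decide

theorem b2z_and (a b : Bool) : b2z (a && b) = b2z a * b2z b := by
  revert a b; decide

theorem sum_b2z (l : List Bool) : (l.map b2z).sum = ((l.count true : ℕ) : ZMod 2) := by
  induction l with
  | nil => simp
  | cons b l ih =>
    cases b
    · simp [b2z, ih]
    · simp [b2z, ih, add_comm]

theorem z2b_natCast (n : ℕ) : z2b (n : ZMod 2) = decide (n % 2 = 1) := by
  rw [← ZMod.natCast_mod n 2]
  rcases Nat.mod_two_eq_zero_or_one n with h | h <;> rw [h] <;> decide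

theorem par_eq (l : List Bool) : par l = z2b ((l.map b2z).sum) := by
  rw [sum_b2z, z2b_natCast, par]

theorem zipWith_map_range {α β γ : Type} (f : α → β → γ) (g : ℕ → α) (h : ℕ → β) (k : ℕ) :
    List.zipWith f ((List.range k).map g) ((List.range k).map h) =
      (List.range k).map (fun j => f (g j) (h j)) := by
  apply List.ext_getElem <;> simp

theorem list_sum_range (f : ℕ → ZMod 2) (k : ℕ) :
    ((List.range k).map f).sum = ∑ j ∈ Finset.range k, f j := by
  induction k with
  | zero => simp
  | succ k ih =>
    rw [List.range_succ, List.map_append, List.sum_append, ih, Finset.sum_range_succ]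
    simp

theorem par_dot (c y : ℕ → ZMod 2) (k : ℕ) :
    par (List.zipWith (fun a b => a && b) ((List.range k).map fun j => z2b (c j))
      ((List.range k).map fun j => z2b (y j))) = z2b (∑ j ∈ Finset.range k, c j * y j) := by
  rw [zipWith_map_range, par_eq, List.map_map]
  congr 1
  rw [← list_sum_range]
  congr 1
  apply List.map_congr_left
  intro j _
  simp [b2z_and]

theorem iter_stp {k : ℕ} (hk : 0 < k) (c y : ℕ → ZMod 2)
    (h : ∀ i, y (i + k) = ∑ j ∈ Finset.range k, c j * y (i + j)) (i : ℕ) :
    (stp ((List.range k).map fun j => z2b (c j)))^[i] ((List.range k).map fun j => z2b (y j)) =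
      (List.range k).map (fun j => z2b (y (i + j))) := by
  induction i with
  | zero => simp
  | succ i ih =>
    rw [Function.iterate_succ_apply', ih, stp, par_dot c (fun j => y (i + j)), ← h i]
    apply List.ext_getElem
    · simp
      omega
    · intro n h1 h2
      simp only [List.length_map, List.length_range] at h2
      rw [List.getElem_append]
      split_ifs with h3
      · simp only [List.getElem_tail, List.getElem_map, List.getElem_range]
        congr 2
        omega
      · simp only [List.length_tail, List.length_map, List.length_range] at h3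
        simp only [List.getElem_singleton, List.getElem_map, List.getElem_range]
        congr 2
        omega

theorem lfsr_eq {k : ℕ} (hk : 0 < k) (c y : ℕ → ZMod 2)
    (h : ∀ i, y (i + k) = ∑ j ∈ Finset.range k, c j * y (i + j)) (m : ℕ) :
    lfsr ((List.range k).map fun j => z2b (c j)) ((List.range k).map fun j => z2b (y j)) m =
      (List.range m).map (fun i => z2b (y i)) := by
  rw [lfsr]
  apply List.map_congr_left
  intro i _
  rw [iter_stp hk c y h i]
  obtain ⟨k', rfl⟩ : ∃ k', k = k' + 1 := ⟨k - 1, by omega⟩
  rw [List.range_succ_eq_map]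
  simp

/-! ### The vectors -/

theorem mem_dbl {l : List (List Bool)} {k : ℕ} (h : ∀ v, v ∈ l ↔ v.length = k) (v : List Bool) :
    v ∈ dbl l ↔ v.length = k + 1 := by
  rw [dbl, List.mem_append, List.mem_map, List.mem_map]
  constructor
  · rintro (⟨w, hw, rfl⟩ | ⟨w, hw, rfl⟩) <;> simp [(h w).1 hw]
  · intro hv
    cases v with
    | nil => simp at hv
    | cons b w =>
      have hw : w.length = k := by simpa using hv
      cases b
      · exact Or.inl ⟨w, (h w).2 hw, rfl⟩
      · exact Or.inr ⟨w, (h w).2 hw, rfl⟩

theorem iter_vecs (N i : ℕ) : ∃ k ≤ i, (∀ v, v ∈ (fun l : List (List Bool) =>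
      if l.length < N then dbl l else l)^[i] [[]] ↔ v.length = k) ∧
    ((fun l : List (List Bool) => if l.length < N then dbl l else l)^[i] [[]]).length = 2 ^ k ∧
    (N ≤ 2 ^ k ∨ k = i) ∧ (2 ^ k ≤ 2 * N + 1) := by
  induction i with
  | zero => exact ⟨0, le_rfl, by simp, by simp, Or.inr rfl, by simp⟩
  | succ i ih =>
    obtain ⟨k, hk, h1, h2, h3, h4⟩ := ih
    rw [Function.iterate_succ_apply']
    set l := (fun l : List (List Bool) => if l.length < N then dbl l else l)^[i] [[]] with hl
    by_cases hN : l.length < N
    · have hki : k = i := by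
        rcases h3 with h3 | h3
        · omega
        · exact h3
      refine ⟨k + 1, by omega, ?_, ?_, ?_, ?_⟩
      · simp only [if_pos hN]
        exact mem_dbl h1
      · simp only [if_pos hN]
        rw [dbl, List.length_append, List.length_map, List.length_map, h2, pow_succ]
        ring
      · right; omega
      · rw [pow_succ]; omega
    · refine ⟨k, by omega, ?_, ?_, ?_, h4⟩
      · simp only [if_neg hN]
        exact h1
      · simp only [if_neg hN]
        exact h2
      · left; omega

theorem vecs_spec (N : ℕ) : ∃ k, N ≤ 2 ^ k ∧ ∀ v, v ∈ vecs N ↔ v.length = k := by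
  obtain ⟨k, -, h1, -, h3, -⟩ := iter_vecs N N
  refine ⟨k, ?_, h1⟩
  rcases h3 with h3 | h3
  · exact h3
  · rw [h3]; exact N.lt_two_pow_self.le

/-- Every sum of `D` samples of the powering construction is listed. -/
theorem exists_field (N : ℕ) (hN : 2 ≤ N) : ∃ k : ℕ, 0 < k ∧ N ≤ 2 ^ k ∧
    ∀ (m : ℕ) {F : Type} [Field F] [Fintype F] [DecidableEq F] [Algebra (ZMod 2) F],
      Module.finrank (ZMod 2) F = k →
      ∀ (D : ℕ) (z : Fin m → ZMod 2), z ∈ sums (Set.range (powGen (F := F) m)) D →
        List.ofFn (fun i => z2b (z i)) ∈ hset N m D := by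
  obtain ⟨k, hk1, hk2⟩ := vecs_spec N
  have hk0 : 0 < k := by
    rcases Nat.eq_zero_or_pos k with h | h
    · subst h; simp at hk1; omega
    · exact h
  refine ⟨k, hk0, hk1, ?_⟩
  intro m F _ _ _ _ hF D
  induction D with
  | zero =>
    intro z hz
    have : z = 0 := hz
    subst this
    simp only [hset, List.mem_singleton]
    apply List.ext_getElem <;> simp [z2b]
  | succ D ih =>
    intro z hz
    obtain ⟨y, hy, w, ⟨p, rfl⟩, rfl⟩ := hz
    simp only [hset, List.mem_flatMap, List.mem_map]
    refine ⟨_, ih y hy, List.ofFn (fun i => z2b (powGen m p i)), ?_, ?_⟩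
    · obtain ⟨c, hc⟩ := powGen_rec hF p.1
      have h1 := lfsr_eq hk0 c (fun i => p.2 (p.1 ^ i)) (hc p.2) m
      simp only [gens, List.mem_flatMap, List.mem_map]
      refine ⟨(List.range k).map fun j => z2b (c j), (hk2 _).2 (by simp),
        (List.range k).map fun j => z2b (p.2 (p.1 ^ j)), (hk2 _).2 (by simp), ?_⟩
      rw [h1]
      apply List.ext_getElem <;> simp [powGen]
    · apply List.ext_getElem <;> simp [z2b_add]

theorem length_lfsr (c s : List Bool) (m : ℕ) : (lfsr c s m).length = m := by simp [lfsr]

theorem length_hset (N m : ℕ) : ∀ D, ∀ r ∈ hset N m D, r.length = m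
  | 0, r, h => by
    simp only [hset, List.mem_singleton] at h
    simp [h]
  | D + 1, r, h => by
    simp only [hset, gens, List.mem_flatMap, List.mem_map] at h
    obtain ⟨y, hy, w, ⟨c, _, s, _, rfl⟩, rfl⟩ := h
    simp [length_hset N m D y hy, length_lfsr]

end Pool.Agent.Helper51.ZP
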