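import Pool.Agent.Helper51.ZP.Main

/-!
# Randomized algorithms in stages
-/

namespace Pool.Agent.Helper51.ZP

open Pool.Agent.Helper81.CC Pool.Agent.Helper31.TMSim Computability
open Pool.Agent.Helper83.CL

theorem PT_szN {α : Type} [ToData α] {m w : α → ℕ} (hm : PolyTime m) (hw : PolyTime w) (d : ℕ) :
    PolyTime (fun a => szN (m a) (w a) d) := by
  unfold szN
  exact PolyTime.add (PolyTime.add (PolyTime.mul hm (PolyTime.pow (PolyTime.mul (by fun_prop)
    (PolyTime.add hw (by fun_prop))) _)) hm) (by fun_prop)

/-- one stage of the deterministic simulation -/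
def stageStep (M : List Bool × List Bool → Bool) (H : List (List Bool)) (x : List Bool)
    (s : Option (List Bool)) : Option (List Bool) :=
  s.bind fun h => (H.find? fun r => M (x, h ++ r)).map fun r => h ++ r

theorem stage_inv (M : List Bool × List Bool → Bool) (H : List (List Bool)) (x : List Bool)
    (c : ℕ) (hH : ∀ r ∈ H, r.length = c) (k : ℕ) :
    ∀ h, (stageStep M H x)^[k] (some []) = some h →
      h.length = k * c ∧ ∀ i, 1 ≤ i → i ≤ k → M (x, h.take (i * c)) = true := by
  induction k with
  | zero =>
    intro h hh
    simp only [Function.iterate_zero, id_eq, Option.some.injEq] at hh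
    subst hh
    exact ⟨by simp, fun i h1 h2 => by omega⟩
  | succ k ih =>
    intro h hh
    rw [Function.iterate_succ_apply', stageStep, Option.bind_eq_some_iff] at hh
    obtain ⟨g, hg, hh⟩ := hh
    rw [Option.map_eq_some_iff] at hh
    obtain ⟨r, hr, rfl⟩ := hh
    obtain ⟨h1, h2⟩ := ih g hg
    have hrH := List.mem_of_find?_eq_some hr
    have hrM := List.find?_some hr
    have hl : (g ++ r).length = (k + 1) * c := by
      rw [List.length_append, h1, hH r hrH]; ring
    refine ⟨hl, fun i hi1 hi2 => ?_⟩
    rcases Nat.lt_or_ge i (k + 1) with hik | hik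
    · rw [List.take_append_of_le_length (by rw [h1]; exact Nat.mul_le_mul_right _ (by omega))]
      exact h2 i hi1 (by omega)
    · have : i = k + 1 := by omega
      subst this
      rw [← hl, List.take_length]
      exact hrM

theorem sz_stage (M : List Bool × List Bool → Bool) (H : List (List Bool)) (x : List Bool)
    (c : ℕ) (hH : ∀ r ∈ H, r.length = c) (k : ℕ) :
    sz ((stageStep M H x)^[k] (some [])) ≤ 4 * (k * c) + 3 := by
  rcases hs : (stageStep M H x)^[k] (some []) with _ | h
  · simp
  · have h1 := (stage_inv M H x c hH k h hs).1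
    have h2 := sz_bools h
    simp only [sz_some]
    rw [h1] at h2
    omega

theorem inP_of_inStages {d : ℕ} {L : Set (List Bool)} (h : InStages d L) : InP L := by
  obtain ⟨A, T, w, h1, h2⟩ := h
  set H : List Bool → List (List Bool) := fun x =>
    hset (szN (A.coins x) (w.eval x.length) d) (A.coins x) (d + d) with hH
  have hcoins : PolyTime (fun x => A.coins x) := PT_eval A.m (by fun_prop)
  have hwP : PolyTime (fun x : List Bool => w.eval x.length) := PT_eval w (by fun_prop)
  have hTP : PolyTime (fun x : List Bool => T.eval x.length) := PT_eval T (by fun_prop)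
  have hHP : PolyTime H := by
    exact PT_hset (PT_szN hcoins hwP d) hcoins (d + d)
  have hlen : ∀ x, ∀ r ∈ H x, r.length = A.coins x := fun x r hr => length_hset _ _ _ r hr
  have hiter : PolyTime (fun x => (stageStep A.M (H x) x)^[T.eval x.length] (some [])) := by
    refine PolyTime.iterate_bd (n := fun x : List Bool => T.eval x.length)
      (s0 := fun _ => some []) (step := fun x s => stageStep A.M (H x) x s) hTP
      (by fun_prop) ?_ (B := fun x => 4 * (T.eval x.length * A.coins x) + 3)
      (((PBd.const 4).mul ((PBd.nat hTP).mul (PBd.nat hcoins))).add (PBd.const 3)) ?_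
    · unfold stageStep
      refine PolyTime.option_bind (g := fun (z : List Bool × Option (List Bool)) h =>
        ((H z.1).find? fun r => A.M (z.1, h ++ r)).map fun r => h ++ r) (by fun_prop) ?_
      refine PolyTime.option_map (g := fun (y : (List Bool × Option (List Bool)) × List Bool) r =>
        y.2 ++ r) ?_ (by fun_prop)
      refine PolyTime.find? (f := fun (y : (List Bool × Option (List Bool)) × List Bool) r =>
        A.M (y.1.1, y.2 ++ r)) (by fun_prop) ?_
      exact PT_of_machine A.poly (by fun_prop) (by fun_prop)
    · intro x k hk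
      refine (sz_stage A.M (H x) x (A.coins x) (hlen x) k).trans ?_
      have : k * A.coins x ≤ T.eval x.length * A.coins x := Nat.mul_le_mul_right _ hk
      omega
  refine inP_of_PT (f := fun x =>
    ((stageStep A.M (H x) x)^[T.eval x.length] (some [])).isSome) (by fun_prop) fun x => ?_
  constructor
  · intro hx
    have key : ∀ k, k ≤ T.eval x.length →
        ((stageStep A.M (H x) x)^[k] (some [])).isSome = true := by
      intro k
      induction k with
      | zero => intro _; rfl
      | succ k ih =>
        intro hk
        obtain ⟨g, hg⟩ := Option.isSome_iff_exists.1 (ih (by omega))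
        obtain ⟨g1, g2⟩ := stage_inv A.M (H x) x (A.coins x) (hlen x) k g hg
        obtain ⟨z, hz, hz'⟩ := hset_hits d (w.eval x.length) (A.coins x) _
          (h2 x hx k (by omega) g g1 g2)
        rw [Function.iterate_succ_apply', hg, stageStep]
        simp only [Option.bind_some, Option.isSome_map]
        rw [List.find?_isSome]
        exact ⟨_, hz', hz⟩
    exact key _ le_rfl
  · intro hs
    by_contra hx
    obtain ⟨g, hg⟩ := Option.isSome_iff_exists.1 hs
    obtain ⟨g1, g2⟩ := stage_inv A.M (H x) x (A.coins x) (hlen x) _ g hg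
    obtain ⟨j, hj1, hj2, hj3⟩ := h1 x hx g g1
    rw [g2 j hj1 hj2] at hj3
    simp at hj3

theorem card_zeros_empty (m : ℕ) :
    Nat.card (Zeros (∅ : Set (MvPolynomial (Fin m) (ZMod 2)))) = 2 ^ m := by
  have : Zeros (∅ : Set (MvPolynomial (Fin m) (ZMod 2))) = Set.univ := by
    ext r; simp [Zeros]
  rw [this, Nat.card_congr (Equiv.Set.univ _)]
  simp [ZMod.card]

theorem inStages_of_inP {d : ℕ} {L : Set (List Bool)} (h : InP L) : InStages d L := by
  obtain ⟨f, hf, hL⟩ := PT_of_inP h
  refine ⟨⟨fun z => f z.1, machine_of_PT (by fun_prop), 0⟩, 1, 1, ?_, ?_⟩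
  · intro x hx g _
    refine ⟨1, le_rfl, by simp, ?_⟩
    show f x = false
    rw [← Bool.not_eq_true, ← hL x]
    exact hx
  · intro x hx j _ g _ _
    refine certified_zeros (Q := ∅) (by simp) (fun r _ => (hL x).1 hx) ?_
    rw [card_zeros_empty]
    simp

theorem inStages_iff (d : ℕ) (L : Set (List Bool)) : InStages d L ↔ InP L :=
  ⟨inP_of_inStages, inStages_of_inP⟩

end Pool.Agent.Helper51.ZP
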