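import Pool.Agent.Helper51.ZP.DefsMem
import Pool.Agent.Helper51.ZP.Stages

/-!
# Machines with small coin-dependent memory
-/

namespace Pool.Agent.Helper51.ZP

open Pool.Agent.Helper81.CC Pool.Agent.Helper31.TMSim Computability
open Pool.Agent.Helper83.CL

/-! ### Transition functions and the calculus -/

theorem PT_of_step {M : List Bool × (List Bool × List Bool) → List Bool}
    (hM : PolyTimeComputable
      (fun z : List Bool × (List Bool × List Bool) => pairEnc z.1 (pairEnc z.2.1 z.2.2))
      (fun y : List Bool => y) M)
    {α : Type} [ToData α] {f g h : α → List Bool} (hf : PolyTime f) (hg : PolyTime g)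
    (hh : PolyTime h) :
    PolyTime (fun a => M (f a, (g a, h a))) := by
  have h0 := scomp_of_polyTimeComputable hM
  have hp : ∀ {u v : α → List Bool}, PolyTime u → PolyTime v →
      PolyTime (fun a => pairEnc (u a) (v a)) := by
    intro u v hu hv
    unfold pairEnc
    exact PolyTime.append (PolyTime.flatMap (f := fun _ b => [true, b]) hu (by fun_prop))
      (PolyTime.list_cons (by fun_prop) hv)
  have h1 : PolyTime (fun a => pairEnc (f a) (pairEnc (g a) (h a))) := hp hf (hp hg hh)
  have h2 : SComp (encOf α) (fun x : List Bool => x)
      (fun a => pairEnc (f a) (pairEnc (g a) (h a))) := SComp.comp scomp_toString h1.scomp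
  have h2' : SComp (encOf α)
      (fun z : List Bool × (List Bool × List Bool) => pairEnc z.1 (pairEnc z.2.1 z.2.2))
      (fun a => (f a, (g a, h a))) := SComp.cast h2 fun a => ⟨a, rfl, rfl⟩
  have h3 := SComp.comp scomp_ofString (SComp.comp h0 h2')
  exact ⟨SComp.congr h3 fun a => rfl⟩

theorem step_of_PT {M : List Bool × (List Bool × List Bool) → List Bool} (hM : PolyTime M) :
    PolyTimeComputable
      (fun z : List Bool × (List Bool × List Bool) => pairEnc z.1 (pairEnc z.2.1 z.2.2))
      (fun y : List Bool => y) M := by
  have h0 : SComp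
      (fun z : List Bool × (List Bool × List Bool) => pairEnc z.1 (pairEnc z.2.1 z.2.2))
      (encOf (List Bool)) (fun z => pairEnc z.1 (pairEnc z.2.1 z.2.2)) := scomp_enc _
  have h1 : PolyTime (fun w : List Bool => ((unpairL w).1, unpairL (unpairL w).2)) :=
    PolyTime.pair (PolyTime.fst PT_unpairL) (PolyTime.comp PT_unpairL (PolyTime.snd PT_unpairL))
  have h3 := SComp.comp hM.scomp (SComp.comp h1.scomp h0)
  have h4 := SComp.comp scomp_toString h3
  exact (SComp.congr h4 fun z => by simp only [unpairL_pairEnc]).computable

/-! ### Removing duplicates -/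

/-- remove duplicates -/
def ded (l : List (List Bool)) : List (List Bool) :=
  l.foldl (fun acc b => if b ∈ acc then acc else b :: acc) []

theorem ded_aux (l : List (List Bool)) : ∀ acc : List (List Bool), acc.Nodup →
    (l.foldl (fun acc b => if b ∈ acc then acc else b :: acc) acc).Nodup ∧
    ∀ c, c ∈ l.foldl (fun acc b => if b ∈ acc then acc else b :: acc) acc ↔ c ∈ acc ∨ c ∈ l := by
  induction l with
  | nil => intro acc h; exact ⟨h, fun c => by simp⟩
  | cons b l ih =>
    intro acc h
    simp only [List.foldl_cons]
    by_cases hb : b ∈ acc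
    · rw [if_pos hb]
      obtain ⟨h1, h2⟩ := ih acc h
      refine ⟨h1, fun c => ?_⟩
      rw [h2 c, List.mem_cons]
      constructor
      · rintro (h3 | h3)
        · exact Or.inl h3
        · exact Or.inr (Or.inr h3)
      · rintro (h3 | rfl | h3)
        · exact Or.inl h3
        · exact Or.inl hb
        · exact Or.inr h3
    · rw [if_neg hb]
      obtain ⟨h1, h2⟩ := ih (b :: acc) (List.nodup_cons.2 ⟨hb, h⟩)
      refine ⟨h1, fun c => ?_⟩
      rw [h2 c, List.mem_cons, List.mem_cons]
      tauto

theorem nodup_ded (l : List (List Bool)) : (ded l).Nodup := (ded_aux l [] List.nodup_nil).1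

theorem mem_ded (l : List (List Bool)) (c : List Bool) : c ∈ ded l ↔ c ∈ l := by
  have := (ded_aux l [] List.nodup_nil).2 c
  simpa [ded] using this

theorem PT_ded {α : Type} [ToData α] {l : α → List (List Bool)} (hl : PolyTime l) :
    PolyTime (fun a => ded (l a)) := by
  refine PolyTime.foldl_add (s0 := fun _ => []) (step := fun _ acc b =>
    if b ∈ acc then acc else b :: acc) hl (by fun_prop) ?_ (C := fun a => sz (l a) + 1)
    (hl.bd.add (PBd.const 1)) ?_
  · exact PolyTime.itep (by fun_prop) (by fun_prop) (by fun_prop)
  · intro a s b hb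
    have := sz_le_of_mem hb
    by_cases h : b ∈ s
    · rw [if_pos h]; omega
    · rw [if_neg h, sz_cons]; omega

/-- one stage of the breadth-first simulation -/
def bfs (step : List Bool × (List Bool × List Bool) → List Bool) (H : List (List Bool)) (w : ℕ)
    (x : List Bool) (R : List (List Bool)) : List (List Bool) :=
  (ded ((R.flatMap fun c => H.map fun r => step (x, (c, r))).filter
    fun c => decide (c.length ≤ w))).take w

theorem sz_bfs (step : List Bool × (List Bool × List Bool) → List Bool) (H : List (List Bool))
    (w : ℕ) (x : List Bool) (R : List (List Bool)) :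
    sz (bfs step H w x R) ≤ w * (4 * w + 1 + 1) + 1 := by
  refine (sz_list_le (4 * w + 1) _ ?_).trans ?_
  · intro b hb
    have h1 := List.mem_of_mem_take hb
    rw [mem_ded, List.mem_filter] at h1
    have h2 := sz_bools b
    have h3 : b.length ≤ w := by simpa using h1.2
    omega
  · have : (bfs step H w x R).length ≤ w := by
      rw [bfs, List.length_take]
      exact min_le_left _ _
    exact Nat.add_le_add_right (Nat.mul_le_mul_right _ this) _

/-! ### The probabilistic argument -/

section
variable {B : Type} [Fintype B] [Nonempty B]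

theorem Ex_cons {n : ℕ} (f : (Fin (n + 1) → B) → ℝ) :
    Ex f = Ex (fun r : B => Ex (fun ρ : Fin n → B => f (Fin.cons r ρ))) := by
  rw [← Ex_prod (fun p : B × (Fin n → B) => f (Fin.cons p.1 p.2))]
  exact (Ex_equiv (Fin.consEquiv (fun _ : Fin (n + 1) => B)) f).symm

/-- at some step the block is light -/
def Bad (s : List Bool → B → List Bool) (light : List Bool → Set B) :
    List Bool → List B → Prop
  | _, [] => False
  | c, r :: l => r ∈ light c ∨ Bad s light (s c r) l

open Classical in
theorem Ex_bad (s : List Bool → B → List Bool) (light : List Bool → Set B) (δ : ℝ) (T : ℕ)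
    (hlight : ∀ l : List B, l.length < T →
      Ex (fun r => if r ∈ light (l.foldl s []) then (1 : ℝ) else 0) ≤ δ) :
    ∀ (n : ℕ) (l : List B), l.length + n ≤ T →
      Ex (fun ρ : Fin n → B => if Bad s light (l.foldl s []) (List.ofFn ρ) then (1 : ℝ) else 0) ≤
        n * δ
  | 0, l, _ => by
    simp only [List.ofFn_zero, Bad, if_false]
    rw [Ex_const]
    simp
  | n + 1, l, hl => by
    rw [Ex_cons]
    have ih := fun r => Ex_bad s light δ T hlight n (l ++ [r]) (by simp; omega)
    simp only [List.foldl_append, List.foldl_cons, List.foldl_nil] at ih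
    have h1 : ∀ r : B, Ex (fun ρ : Fin n → B =>
        if Bad s light (l.foldl s []) (List.ofFn (Fin.cons (α := fun _ => B) r ρ)) then (1 : ℝ)
          else 0) ≤ (if r ∈ light (l.foldl s []) then (1 : ℝ) else 0) + n * δ := by
      intro r
      have h2 : ∀ ρ : Fin n → B,
          (if Bad s light (l.foldl s []) (List.ofFn (Fin.cons (α := fun _ => B) r ρ))
            then (1 : ℝ) else 0) ≤
          (if r ∈ light (l.foldl s []) then (1 : ℝ) else 0) +
            (if Bad s light (s (l.foldl s []) r) (List.ofFn ρ) then (1 : ℝ) else 0) := by
        intro ρ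
        rw [List.ofFn_cons]
        simp only [Bad]
        split_ifs <;> simp_all
      refine (Ex_mono h2).trans ?_
      rw [Ex_add, Ex_const]
      exact add_le_add le_rfl (ih r)
    refine (Ex_mono h1).trans ?_
    rw [Ex_add, Ex_const]
    have := hlight l (by omega)
    push_cast
    linarith

end

theorem inP_of_inSmallMemory {d : ℕ} {L : Set (List Bool)} (h : InSmallMemory d L) : InP L := by
  classical
  obtain ⟨A, w, h1, h2, h3, h4⟩ := h
  obtain ⟨v, h4⟩ := h4 (4 * (A.T + 1) * (w + 1))
  have hcoins : PolyTime (fun x => A.coins x) := PT_eval A.m (by fun_prop)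
  have hwP : PolyTime (fun x : List Bool => w.eval x.length) := PT_eval w (by fun_prop)
  have hvP : PolyTime (fun x : List Bool => v.eval x.length) := PT_eval v (by fun_prop)
  have hTP : PolyTime (fun x : List Bool => A.stages x) := PT_eval A.T (by fun_prop)
  set H : List Bool → List (List Bool) := fun x =>
    hset (szN (A.coins x) (v.eval x.length) d) (A.coins x) (d + d) with hH
  have hHP : PolyTime H := PT_hset (PT_szN hcoins hvP d) hcoins (d + d)
  have hlen : ∀ x, ∀ r ∈ H x, r.length = A.coins x := fun x r hr => length_hset _ _ _ r hr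
  have hiter : PolyTime (fun x => (bfs A.step (H x) (w.eval x.length) x)^[A.stages x] [[]]) := by
    refine PolyTime.iterate_bd (n := fun x : List Bool => A.stages x)
      (s0 := fun _ => [[]]) (step := fun x R => bfs A.step (H x) (w.eval x.length) x R) hTP
      (by fun_prop) ?_
      (B := fun x => w.eval x.length * (4 * w.eval x.length + 1 + 1) + 1 + 3)
      (((((PBd.nat hwP).mul ((((PBd.const 4).mul (PBd.nat hwP)).add (PBd.const 1)).add
        (PBd.const 1)))).add (PBd.const 1)).add (PBd.const 3)) ?_
    · unfold bfs
      refine PolyTime.take (PolyTime.comp hwP (by fun_prop)) (PT_ded ?_)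
      refine PolyTime.filter (f := fun (z : List Bool × List (List Bool)) (c : List Bool) =>
        decide (c.length ≤ w.eval z.1.length)) ?_ ?_
      · refine PolyTime.flatMap (f := fun (z : List Bool × List (List Bool)) c =>
          (H z.1).map fun r => A.step (z.1, (c, r))) (by fun_prop) ?_
        refine PolyTime.list_map (f := fun (y : (List Bool × List (List Bool)) × List Bool) r =>
          A.step (y.1.1, (y.2, r))) (PolyTime.comp hHP (by fun_prop)) ?_
        exact PT_of_step A.poly (by fun_prop) (by fun_prop) (by fun_prop)
      · exact PolyTime.decide_le (by fun_prop) (PolyTime.comp (g := fun x : List Bool =>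
          w.eval x.length) (f := fun z : (List Bool × List (List Bool)) × List Bool => z.1.1)
          hwP (by fun_prop))
    · intro x k _
      rcases k with _ | k
      · simp
      · rw [Function.iterate_succ_apply']
        exact (sz_bfs A.step (H x) _ x _).trans (Nat.le_add_right _ 3)
  refine inP_of_PT (f := fun x =>
    decide ([true] ∈ (bfs A.step (H x) (w.eval x.length) x)^[A.stages x] [[]]))
    (PolyTime.decide_mem (by fun_prop) hiter) fun x => ?_
  rw [decide_eq_true_iff]
  -- soundness of the simulation
  have sound : ∀ k, ∀ c ∈ (bfs A.step (H x) (w.eval x.length) x)^[k] [[]],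
      ∃ l : List (Fin (A.coins x) → ZMod 2), l.length = k ∧ A.conf x l = c := by
    intro k
    induction k with
    | zero =>
      intro c hc
      have hc' : c = [] := by simpa using hc
      exact ⟨[], rfl, hc'.symm⟩
    | succ k ih =>
      intro c hc
      rw [Function.iterate_succ_apply'] at hc
      have h4 := List.mem_of_mem_take hc
      rw [mem_ded, List.mem_filter, List.mem_flatMap] at h4
      obtain ⟨⟨g, hg, hg'⟩, -⟩ := h4
      rw [List.mem_map] at hg'
      obtain ⟨r, hr, rfl⟩ := hg'
      obtain ⟨l, hl1, hl2⟩ := ih g hg
      obtain ⟨z, hz⟩ := exists_bits (hlen x r hr)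
      refine ⟨l ++ [z], by simp [hl1], ?_⟩
      rw [StepMachine.conf, List.foldl_append]
      simp only [List.foldl_cons, List.foldl_nil]
      rw [hz]
      rw [← hl2]
      rfl
  constructor
  · intro hx
    obtain ⟨hcard, hlenc⟩ := h3 x hx
    set s : List Bool → (Fin (A.coins x) → ZMod 2) → List Bool :=
      fun c r => A.step (x, (c, bits r)) with hs
    obtain ⟨wx, hwx⟩ : ∃ wx : ℕ, wx = w.eval x.length := ⟨_, rfl⟩
    obtain ⟨W, hW⟩ : ∃ W : ℕ, W = 4 * (A.stages x + 1) * (wx + 1) := ⟨_, rfl⟩
    have hWp : (4 * (A.T + 1) * (w + 1) : Polynomial ℕ).eval x.length = W := by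
      rw [hW, hwx]
      simp [StepMachine.stages]
    have hfin : (A.reach x).Finite := by
      apply Set.Finite.subset (List.finite_length_le Bool (w.eval x.length))
      intro c hc
      exact hlenc c hc
    -- rare transitions
    set light : List Bool → Set (Fin (A.coins x) → ZMod 2) := fun c =>
      {r | W * Nat.card {r' : Fin (A.coins x) → ZMod 2 // s c r' = s c r} < 2 ^ A.coins x}
      with hlight
    have hT0 : (0 : ℝ) < (A.stages x : ℝ) + 1 := by positivity
    have hWpos : (0 : ℝ) < W := by
      have : 0 < W := by rw [hW]; positivity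
      exact_mod_cast this
    have hlightδ : ∀ l : List (Fin (A.coins x) → ZMod 2), l.length < A.stages x →
        Ex (fun r => if r ∈ light (l.foldl s []) then (1 : ℝ) else 0) ≤
          1 / (4 * ((A.stages x : ℝ) + 1)) := by
      intro l hl
      set c0 := l.foldl s [] with hc0
      have hle : ∀ r, (if r ∈ light c0 then (1 : ℝ) else 0) ≤
          ∑ c' ∈ hfin.toFinset, if W * Nat.card {r' : Fin (A.coins x) → ZMod 2 // s c0 r' = c'} <
            2 ^ A.coins x ∧ r ∈ {r' | s c0 r' = c'} then (1 : ℝ) else 0 := by
        intro r
        by_cases hr : r ∈ light c0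
        · rw [if_pos hr]
          have hmem : s c0 r ∈ hfin.toFinset := by
            rw [Set.Finite.mem_toFinset]
            refine ⟨l ++ [r], by simp; omega, ?_⟩
            rw [StepMachine.conf, List.foldl_append]
            rfl
          have h5 := Finset.single_le_sum (f := fun c' =>
            if W * Nat.card {r' : Fin (A.coins x) → ZMod 2 // s c0 r' = c'} <
              2 ^ A.coins x ∧ r ∈ {r' | s c0 r' = c'} then (1 : ℝ) else 0)
              (fun j _ => by split_ifs <;> norm_num) hmem
          simp only [if_pos (show W * Nat.card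
            {r' : Fin (A.coins x) → ZMod 2 // s c0 r' = s c0 r} < 2 ^ A.coins x ∧
            r ∈ {r' | s c0 r' = s c0 r} from ⟨hr, rfl⟩)] at h5
          exact h5
        · rw [if_neg hr]
          exact Finset.sum_nonneg fun j _ => by split_ifs <;> norm_num
      refine (Ex_mono hle).trans ?_
      rw [Ex_sum]
      have hterm : ∀ c' : List Bool, Ex (fun r : Fin (A.coins x) → ZMod 2 =>
          if W * Nat.card {r' : Fin (A.coins x) → ZMod 2 // s c0 r' = c'} <
            2 ^ A.coins x ∧ r ∈ {r' | s c0 r' = c'} then (1 : ℝ) else 0) ≤ 1 / W := by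
        intro c'
        by_cases hi : W * Nat.card {r' : Fin (A.coins x) → ZMod 2 // s c0 r' = c'} <
            2 ^ A.coins x
        · simp only [hi, true_and]
          rw [Ex_indicator]
          rw [div_le_div_iff₀ (by positivity) hWpos]
          have h6 := hi.le
          rw [mul_comm] at h6
          rw [one_mul]
          exact_mod_cast h6
        · simp only [hi, false_and, if_false]
          rw [Ex_const]
          positivity
      refine (Finset.sum_le_sum fun c' _ => hterm c').trans ?_
      rw [Finset.sum_const, nsmul_eq_mul]
      have hkw : ((hfin.toFinset.card : ℕ) : ℝ) ≤ (wx : ℝ) + 1 := by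
        have : hfin.toFinset.card ≤ wx + 1 := by
          rw [← Set.ncard_eq_toFinset_card _ hfin]
          omega
        exact_mod_cast this
      have hw0 : (0 : ℝ) < (wx : ℝ) + 1 := by positivity
      have hWx : (W : ℝ) = 4 * ((A.stages x : ℝ) + 1) * ((wx : ℝ) + 1) := by
        rw [hW]
        push_cast
        ring
      rw [hWx, mul_one_div, div_le_div_iff₀ (by positivity) (by positivity), one_mul]
      calc ((hfin.toFinset.card : ℕ) : ℝ) * (4 * ((A.stages x : ℝ) + 1))
          ≤ ((wx : ℝ) + 1) * (4 * ((A.stages x : ℝ) + 1)) :=
            mul_le_mul_of_nonneg_right hkw (by positivity)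
        _ = 4 * ((A.stages x : ℝ) + 1) * ((wx : ℝ) + 1) := by ring
    -- an accepting run without rare transitions
    have hbad := Ex_bad s light _ (A.stages x) (fun l hl => by convert hlightδ l hl)
      (A.stages x) [] (by simp)
    have hacc : (1 : ℝ) / 2 ≤ Ex (fun ρ : Fin (A.stages x) → Fin (A.coins x) → ZMod 2 =>
        if A.conf x (List.ofFn ρ) = [true] then (1 : ℝ) else 0) := by
      rw [Ex, ← Finset.sum_filter, Finset.sum_const, nsmul_eq_mul, mul_one]
      have h5 := h2 x hx
      have h6 : (Fintype.card (Fin (A.stages x) → Fin (A.coins x) → ZMod 2) : ℝ) =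
          2 ^ (A.coins x * A.stages x) := by
        simp [ZMod.card, pow_mul]
      rw [h6, div_le_div_iff₀ (by norm_num) (by positivity), one_mul]
      have h7 : Nat.card {ρ : Fin (A.stages x) → Fin (A.coins x) → ZMod 2 //
          A.conf x (List.ofFn ρ) = [true]} = (Finset.univ.filter
            (fun ρ : Fin (A.stages x) → Fin (A.coins x) → ZMod 2 =>
              A.conf x (List.ofFn ρ) = [true])).card := by
        rw [Nat.card_eq_fintype_card, Fintype.card_subtype]
      rw [h7] at h5
      have h8 : (2 : ℝ) ^ (A.coins x * A.stages x) ≤ 2 * ((Finset.univ.filter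
            (fun ρ : Fin (A.stages x) → Fin (A.coins x) → ZMod 2 =>
              A.conf x (List.ofFn ρ) = [true])).card : ℝ) := by exact_mod_cast h5
      linarith
    obtain ⟨ρ, hρ1, hρ2⟩ : ∃ ρ : Fin (A.stages x) → Fin (A.coins x) → ZMod 2,
        A.conf x (List.ofFn ρ) = [true] ∧ ¬ Bad s light [] (List.ofFn ρ) := by
      by_contra hcon
      push Not at hcon
      have h5 : Ex (fun ρ : Fin (A.stages x) → Fin (A.coins x) → ZMod 2 =>
          if A.conf x (List.ofFn ρ) = [true] then (1 : ℝ) else 0) ≤
          Ex (fun ρ : Fin (A.stages x) → Fin (A.coins x) → ZMod 2 =>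
            if Bad s light (List.foldl s [] []) (List.ofFn ρ) then (1 : ℝ) else 0) := by
        refine Ex_mono fun ρ => ?_
        by_cases h6 : A.conf x (List.ofFn ρ) = [true]
        · have h7 := hcon ρ h6
          simp only [List.foldl_nil]
          rw [if_pos h6, if_pos h7]
        · rw [if_neg h6]
          split_ifs <;> norm_num
      have h6 : (A.stages x : ℝ) * (1 / (4 * ((A.stages x : ℝ) + 1))) ≤ 1 / 4 := by
        rw [mul_one_div, div_le_div_iff₀ (by positivity) (by norm_num)]
        linarith
      linarith
    -- following the run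
    have follow : ∀ (l' l : List (Fin (A.coins x) → ZMod 2)),
        l.length + l'.length ≤ A.stages x → A.conf x l ∈
          (bfs A.step (H x) (w.eval x.length) x)^[l.length] [[]] →
        ¬ Bad s light (A.conf x l) l' → A.conf x (l ++ l') ∈
          (bfs A.step (H x) (w.eval x.length) x)^[l.length + l'.length] [[]] := by
      intro l'
      induction l' with
      | nil => intro l _ hl _; simpa using hl
      | cons r l' ih =>
        intro l hlen' hl hb
        simp only [Bad, not_or] at hb
        obtain ⟨hb1, hb2⟩ := hb
        have hstep : A.conf x (l ++ [r]) = s (A.conf x l) r := by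
          rw [StepMachine.conf, List.foldl_append]; rfl
        rw [← hstep] at hb2
        simp only [List.length_cons] at hlen'
        have := ih (l ++ [r]) (by simp; omega) ?_ hb2
        · rw [List.append_assoc] at this
          simp only [List.length_append, List.length_cons, List.length_nil] at this
          have e : l.length + (0 + 1) + l'.length = l.length + (l'.length + 1) := by ring
          rw [e] at this
          exact this
        · -- the next configuration is found
          simp only [hlight, Set.mem_setOf_eq, not_lt] at hb1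
          rw [← hWp] at hb1
          obtain ⟨z, hz, hz'⟩ := hset_hits d (v.eval x.length) (A.coins x) _
            (h4 x hx (A.conf x l) ⟨l, by omega, rfl⟩ _ hb1)
          rw [List.length_append, List.length_singleton, Function.iterate_succ_apply', hstep]
          set R := (bfs A.step (H x) (w.eval x.length) x)^[l.length] [[]] with hR
          set R' := (R.flatMap fun c => (H x).map fun r => A.step (x, (c, r))).filter
            (fun c => decide (c.length ≤ w.eval x.length)) with hR'
          have hsub : ∀ c ∈ R', c ∈ A.reach x := by
            intro c hc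
            rw [hR', List.mem_filter, List.mem_flatMap] at hc
            obtain ⟨⟨g, hg, hg'⟩, -⟩ := hc
            rw [List.mem_map] at hg'
            obtain ⟨r', hr', rfl⟩ := hg'
            obtain ⟨l0, hl1, hl2⟩ := sound _ g hg
            obtain ⟨z', hz'⟩ := exists_bits (hlen x r' hr')
            refine ⟨l0 ++ [z'], by simp [hl1]; omega, ?_⟩
            rw [StepMachine.conf, List.foldl_append]
            simp only [List.foldl_cons, List.foldl_nil]
            rw [hz', ← hl2]
            rfl
          have hle : (ded R').length ≤ w.eval x.length := by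
            refine le_trans ?_ hcard
            rw [← List.toFinset_card_of_nodup (nodup_ded R')]
            rw [← Set.ncard_coe_finset]
            refine Set.ncard_le_ncard ?_ hfin
            intro c hc
            have hc' : c ∈ ded R' := by simpa using hc
            exact hsub c ((mem_ded _ _).1 hc')
          have hmemR : s (A.conf x l) r ∈ R' := by
            rw [hR', List.mem_filter, List.mem_flatMap]
            refine ⟨⟨A.conf x l, hl, ?_⟩, ?_⟩
            · rw [List.mem_map]
              exact ⟨_, hz', hz⟩
            · have : s (A.conf x l) r ∈ A.reach x :=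
                ⟨l ++ [r], by simp; omega, hstep⟩
              simpa using hlenc _ this
          show s (A.conf x l) r ∈ bfs A.step (H x) (w.eval x.length) x R
          rw [bfs, List.take_of_length_le hle, mem_ded]
          exact hmemR
    have hfin := follow (List.ofFn ρ) [] (by simp) (by simp [StepMachine.conf])
      (by simpa [StepMachine.conf] using hρ2)
    simp only [List.nil_append, List.length_nil, List.length_ofFn, zero_add] at hfin
    rw [hρ1] at hfin
    exact hfin
  · intro hs
    by_contra hx
    obtain ⟨l, hl1, hl2⟩ := sound _ _ hs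
    refine h1 x hx (fun i => l.get (i.cast hl1.symm)) ?_
    rw [← hl2]
    congr 1
    apply List.ext_getElem
    · simp [hl1]
    · intro n h4 h5
      simp

theorem inSmallMemory_of_inP {d : ℕ} {L : Set (List Bool)} (h : InP L) : InSmallMemory d L := by
  obtain ⟨f, hf, hL⟩ := PT_of_inP h
  have hstep : PolyTime (fun z : List Bool × (List Bool × List Bool) => [f z.1]) :=
    PolyTime.list_cons (by fun_prop) (by fun_prop)
  set A : StepMachine := ⟨fun z => [f z.1], step_of_PT hstep, 0, 1⟩ with hA
  have hT : ∀ x, A.stages x = 1 := fun x => by simp [StepMachine.stages, hA]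
  have hc : ∀ x, A.coins x = 0 := fun x => by simp [StepMachine.coins, hA]
  have hconf : ∀ x (l : List (Fin (A.coins x) → ZMod 2)), l ≠ [] → A.conf x l = [f x] := by
    intro x l hl
    rw [StepMachine.conf, ← List.dropLast_append_getLast hl, List.foldl_append]
    rfl
  have hne : ∀ x (ρ : Fin (A.stages x) → Fin (A.coins x) → ZMod 2), List.ofFn ρ ≠ [] := by
    intro x ρ h0
    have := congrArg List.length h0
    simp [hT] at this
  refine ⟨A, 2, ?_, ?_, ?_, ?_⟩
  · intro x hx ρ
    rw [hconf x _ (hne x ρ)]
    intro h1
    apply hx
    rw [hL x]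
    simpa using h1
  · intro x hx
    have h1 : ∀ ρ : Fin (A.stages x) → Fin (A.coins x) → ZMod 2,
        A.conf x (List.ofFn ρ) = [true] := by
      intro ρ
      rw [hconf x _ (hne x ρ), (hL x).1 hx]
    have h2 : 0 < Nat.card {ρ : Fin (A.stages x) → Fin (A.coins x) → ZMod 2 //
        A.conf x (List.ofFn ρ) = [true]} := by
      rw [Nat.card_pos_iff]
      exact ⟨⟨⟨fun _ _ => 0, h1 _⟩⟩, inferInstance⟩
    have h3 : 2 ^ (A.coins x * A.stages x) = 1 := by rw [hc x]; simp
    rw [h3]
    omega
  · intro x hx
    have hreach : ∀ c ∈ A.reach x, c = [] ∨ c = [f x] := by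
      rintro c ⟨l, _, rfl⟩
      by_cases hl : l = []
      · subst hl; exact Or.inl rfl
      · exact Or.inr (hconf x l hl)
    have h2 : (2 : Polynomial ℕ).eval x.length = 2 := by simp
    refine ⟨?_, ?_⟩
    · rw [h2]
      have h3 : A.reach x ⊆ ({[], [f x]} : Set (List Bool)) := by
        intro c hc
        rcases hreach c hc with h | h <;> simp [h]
      refine (Set.ncard_le_ncard h3 (Set.toFinite _)).trans ?_
      exact Set.ncard_insert_le _ _ |>.trans (by simp)
    · intro c hc
      rw [h2]
      rcases hreach c hc with h | h <;> simp [h]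
  · intro p
    refine ⟨1, fun x hx c hc c' hp => ?_⟩
    have hc' : [f x] = c' := by
      by_contra hcon
      have : Nat.card {r : Fin (A.coins x) → ZMod 2 // A.step (x, (c, bits r)) = c'} = 0 := by
        rw [Nat.card_eq_zero]
        left
        exact ⟨fun r => hcon r.2⟩
      rw [this] at hp
      simp at hp
    refine certified_zeros (Q := ∅) (by simp) (fun r _ => hc') ?_
    rw [card_zeros_empty]
    simp

theorem inSmallMemory_iff (d : ℕ) (L : Set (List Bool)) : InSmallMemory d L ↔ InP L :=
  ⟨inP_of_inSmallMemory, inSmallMemory_of_inP⟩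

end Pool.Agent.Helper51.ZP
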