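import Pool.Agent.Helper51.ZP.Deg

/-!
# Sums of small-bias distributions fool polynomials of bounded degree over `F_2` (Viola)
-/

namespace Pool.Agent.Helper51.ZP

open Finset

/-- the sign `(-1)^a` -/
def sg (a : ZMod 2) : ℝ := if a = 0 then 1 else -1

theorem zmod2_cases (a : ZMod 2) : a = 0 ∨ a = 1 := by revert a; decide

theorem zmod2_self (a : ZMod 2) : a + a = 0 := by revert a; decide

@[simp] theorem sg_zero : sg 0 = 1 := by simp [sg]
@[simp] theorem sg_one : sg 1 = -1 := by simp [sg]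

theorem sg_add (a b : ZMod 2) : sg (a + b) = sg a * sg b := by
  have h : (1 : ZMod 2) + 1 = 0 := by decide
  rcases zmod2_cases a with rfl | rfl <;> rcases zmod2_cases b with rfl | rfl <;>
    simp [h]

theorem sg_sq (a : ZMod 2) : sg a * sg a = 1 := by
  rcases zmod2_cases a with rfl | rfl <;> simp

theorem abs_sg (a : ZMod 2) : |sg a| = 1 := by
  rcases zmod2_cases a with rfl | rfl <;> simp

/-- expectation over a finite probability space with the uniform distribution -/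
noncomputable def Ex {Ω : Type} [Fintype Ω] (f : Ω → ℝ) : ℝ := (∑ ω, f ω) / Fintype.card Ω

section Ex
variable {Ω Ω' : Type} [Fintype Ω] [Fintype Ω']

theorem Ex_add (f g : Ω → ℝ) : Ex (fun ω => f ω + g ω) = Ex f + Ex g := by
  simp [Ex, sum_add_distrib, add_div]

theorem Ex_sub (f g : Ω → ℝ) : Ex (fun ω => f ω - g ω) = Ex f - Ex g := by
  simp [Ex, sum_sub_distrib, sub_div]

theorem Ex_mul (c : ℝ) (f : Ω → ℝ) : Ex (fun ω => c * f ω) = c * Ex f := by
  simp [Ex, ← mul_sum, mul_div_assoc]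

theorem Ex_mul' (c : ℝ) (f : Ω → ℝ) : Ex (fun ω => f ω * c) = Ex f * c := by
  simp only [Ex, ← sum_mul]
  ring

theorem Ex_const [Nonempty Ω] (c : ℝ) : Ex (fun _ : Ω => c) = c := by
  have : (Fintype.card Ω : ℝ) ≠ 0 := by
    exact_mod_cast Fintype.card_ne_zero
  simp [Ex, this]

theorem Ex_mono {f g : Ω → ℝ} (h : ∀ ω, f ω ≤ g ω) : Ex f ≤ Ex g :=
  div_le_div_of_nonneg_right (sum_le_sum fun i _ => h i) (by positivity)

theorem Ex_comm (f : Ω → Ω' → ℝ) : Ex (fun a => Ex (fun b => f a b)) =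
    Ex (fun b => Ex (fun a => f a b)) := by
  simp only [Ex, ← sum_div]
  rw [sum_comm]
  ring

theorem Ex_prod (f : Ω × Ω' → ℝ) : Ex f = Ex (fun a => Ex (fun b => f (a, b))) := by
  simp only [Ex, ← sum_div, Fintype.sum_prod_type, Fintype.card_prod, Nat.cast_mul]
  field_simp

theorem Ex_sum {κ : Type*} (s : Finset κ) (f : κ → Ω → ℝ) :
    Ex (fun ω => ∑ j ∈ s, f j ω) = ∑ j ∈ s, Ex (f j) := by
  simp only [Ex, ← sum_div]
  rw [sum_comm]

theorem Ex_equiv (e : Ω ≃ Ω') (f : Ω' → ℝ) : Ex (fun a => f (e a)) = Ex f := by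
  simp only [Ex, Fintype.card_congr e]
  rw [e.sum_comp]

theorem abs_Ex_le [Nonempty Ω] {f : Ω → ℝ} {c : ℝ} (h : ∀ ω, |f ω| ≤ c) : |Ex f| ≤ c := by
  rw [abs_le]
  constructor
  · rw [← Ex_const (Ω := Ω) (-c)]
    exact Ex_mono fun ω => (abs_le.1 (h ω)).1
  · conv_rhs => rw [← Ex_const (Ω := Ω) c]
    exact Ex_mono fun ω => (abs_le.1 (h ω)).2

theorem sq_Ex_le [Nonempty Ω] (f : Ω → ℝ) : (Ex f) ^ 2 ≤ Ex (fun ω => f ω ^ 2) := by
  have hc : (0 : ℝ) < Fintype.card Ω := by exact_mod_cast Fintype.card_pos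
  have h := sq_sum_le_card_mul_sum_sq (s := (univ : Finset Ω)) (f := f)
  simp only [card_univ] at h
  rw [Ex, Ex, div_pow, div_le_div_iff₀ (by positivity) hc]
  nlinarith [h]

theorem exists_pos_of_Ex {f : Ω → ℝ} (h : 0 < Ex f) : ∃ ω, 0 < f ω := by
  by_contra hcon
  push Not at hcon
  have h1 : ∑ ω, f ω ≤ 0 := sum_nonpos fun i _ => hcon i
  have h2 : Ex f ≤ 0 := div_nonpos_of_nonpos_of_nonneg h1 (by positivity)
  linarith

end Ex

section
variable {ι : Type} [Fintype ι] [DecidableEq ι]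

/-- the distribution of `Y` fools polynomials of degree at most `d` with error `e` -/
def Fool {Ω : Type} [Fintype Ω] (d : ℕ) (e : ℝ) (Y : Ω → ι → ZMod 2) : Prop :=
  ∀ f : (ι → ZMod 2) → ZMod 2, DegLE d f →
    |Ex (fun ω => sg (f (Y ω))) - Ex (fun x : ι → ZMod 2 => sg (f x))| ≤ e

/-- the distribution of `W` is `ε`-biased -/
def Bias {Ω : Type} [Fintype Ω] (ε : ℝ) (W : Ω → ι → ZMod 2) : Prop :=
  ∀ a : ι → ZMod 2, a ≠ 0 → |Ex (fun ω => sg (a ⬝ᵥ W ω))| ≤ ε

theorem Ex_shift (φ : (ι → ZMod 2) → ℝ) (a : ι → ZMod 2) :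
    Ex (fun x : ι → ZMod 2 => φ (x + a)) = Ex φ :=
  Ex_equiv (Equiv.addRight a) φ

/-- orthogonality -/
theorem Ex_sg_dot (h : ι → ZMod 2) :
    Ex (fun a : ι → ZMod 2 => sg (a ⬝ᵥ h)) = if h = 0 then 1 else 0 := by
  split_ifs with h0
  · subst h0
    simp [Ex_const]
  · obtain ⟨i, hi⟩ : ∃ i, h i ≠ 0 := by
      by_contra hcon
      push Not at hcon
      exact h0 (funext hcon)
    have hi1 : h i = 1 := (zmod2_cases (h i)).resolve_left hi
    have h1 := Ex_shift (fun a : ι → ZMod 2 => sg (a ⬝ᵥ h)) (Pi.single i 1)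
    have h2 : (fun x : ι → ZMod 2 => sg ((x + Pi.single i 1) ⬝ᵥ h)) =
        fun x => (-1) * sg (x ⬝ᵥ h) := by
      funext x
      rw [add_dotProduct, sg_add, single_dotProduct, hi1]
      simp
    rw [h2, Ex_mul] at h1
    linarith

theorem char2 (x : ι → ZMod 2) : x + x = 0 := funext fun i => zmod2_self _

/-- Parseval for autocorrelations -/
theorem autocorr (φ : (ι → ZMod 2) → ℝ) (h : ι → ZMod 2) :
    ∑ a : ι → ZMod 2, (Ex (fun x => φ x * sg (a ⬝ᵥ x))) ^ 2 * sg (a ⬝ᵥ h) =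
      Ex (fun x => φ x * φ (x + h)) := by
  have hN : ((Fintype.card (ι → ZMod 2) : ℕ) : ℝ) ≠ 0 := by
    exact_mod_cast Fintype.card_ne_zero
  have key : ∀ a : ι → ZMod 2, (Ex (fun x => φ x * sg (a ⬝ᵥ x))) ^ 2 * sg (a ⬝ᵥ h) =
      Ex (fun x => Ex (fun y => φ x * φ y * sg (a ⬝ᵥ (x + y + h)))) := by
    intro a
    have e1 : ∀ x, Ex (fun y => φ x * φ y * sg (a ⬝ᵥ (x + y + h))) =
        (φ x * sg (a ⬝ᵥ x)) * (Ex (fun y => φ y * sg (a ⬝ᵥ y)) * sg (a ⬝ᵥ h)) := by
      intro x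
      rw [← Ex_mul' , ← Ex_mul]
      congr 1
      funext y
      rw [dotProduct_add, dotProduct_add, sg_add, sg_add]
      ring
    simp only [e1]
    rw [Ex_mul']
    ring
  have e2 : ∀ x : ι → ZMod 2, ∀ y, ∑ a : ι → ZMod 2, φ x * φ y * sg (a ⬝ᵥ (x + y + h)) =
      if y = x + h then φ x * φ y * Fintype.card (ι → ZMod 2) else 0 := by
    intro x y
    rw [← mul_sum]
    have h1 := Ex_sg_dot (x + y + h)
    rw [Ex, div_eq_iff hN] at h1
    rw [h1]
    have h3 : (x + y + h = 0) ↔ (y = x + h) := by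
      constructor
      · intro h4
        have : y = (x + y + h) + (x + h) := by
          have h5 := char2 x
          have h6 := char2 h
          calc y = 0 + y + 0 := by simp
            _ = (x + x) + y + (h + h) := by rw [h5, h6]
            _ = _ := by abel
        rw [this, h4, zero_add]
      · rintro rfl
        have h5 := char2 x
        have h6 := char2 h
        calc x + (x + h) + h = (x + x) + (h + h) := by abel
          _ = 0 := by rw [h5, h6, add_zero]
    simp only [h3]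
    split_ifs <;> ring
  simp only [key]
  rw [← Ex_sum]
  have e3 : (fun x : ι → ZMod 2 => ∑ a : ι → ZMod 2,
      Ex (fun y => φ x * φ y * sg (a ⬝ᵥ (x + y + h)))) = fun x => φ x * φ (x + h) := by
    funext x
    rw [← Ex_sum]
    simp only [e2]
    rw [Ex]
    simp only [sum_ite_eq', mem_univ, if_true]
    field_simp
  rw [e3]

theorem l2_bias {Ω : Type} [Fintype Ω] [Nonempty Ω] {ε : ℝ} (hε : 0 ≤ ε) {W : Ω → ι → ZMod 2}
    (hW : Bias ε W) (φ : (ι → ZMod 2) → ℝ) (hφ : ∀ x, φ x * φ x = 1) :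
    Ex (fun x : ι → ZMod 2 => (Ex (fun w => φ (x + W w))) ^ 2) ≤ (Ex φ) ^ 2 + ε ^ 2 := by
  set c : (ι → ZMod 2) → ℝ := fun a => (Ex (fun x => φ x * sg (a ⬝ᵥ x))) ^ 2 with hc
  have hc0 : ∀ a, 0 ≤ c a := fun a => sq_nonneg _
  -- the left side through the autocorrelation
  have e1 : Ex (fun x : ι → ZMod 2 => (Ex (fun w => φ (x + W w))) ^ 2) =
      Ex (fun w => Ex (fun w' => Ex (fun x : ι → ZMod 2 => φ x * φ (x + (W w + W w'))))) := by
    have a1 : ∀ x : ι → ZMod 2, (Ex (fun w => φ (x + W w))) ^ 2 =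
        Ex (fun w => Ex (fun w' => φ (x + W w) * φ (x + W w'))) := by
      intro x
      simp only [Ex_mul, Ex_mul']
      ring
    simp only [a1]
    rw [Ex_comm]
    congr 1
    funext w
    rw [Ex_comm]
    congr 1
    funext w'
    rw [← Ex_shift (fun x => φ x * φ (x + (W w + W w'))) (W w)]
    congr 1
    funext x
    have : x + W w + (W w + W w') = x + W w' := by
      have h5 := char2 (W w)
      calc x + W w + (W w + W w') = x + (W w + W w) + W w' := by abel
        _ = x + W w' := by rw [h5, add_zero]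
    rw [this]
  have e2 : ∀ w w', Ex (fun x : ι → ZMod 2 => φ x * φ (x + (W w + W w'))) =
      ∑ a : ι → ZMod 2, c a * (sg (a ⬝ᵥ W w) * sg (a ⬝ᵥ W w')) := by
    intro w w'
    rw [← autocorr]
    refine sum_congr rfl fun a _ => ?_
    rw [dotProduct_add, sg_add]
  have e3 : Ex (fun w => Ex (fun w' => Ex (fun x : ι → ZMod 2 =>
      φ x * φ (x + (W w + W w'))))) =
      ∑ a : ι → ZMod 2, c a * (Ex (fun w => sg (a ⬝ᵥ W w))) ^ 2 := by
    simp only [e2]
    have : ∀ w, Ex (fun w' => ∑ a : ι → ZMod 2, c a * (sg (a ⬝ᵥ W w) * sg (a ⬝ᵥ W w'))) =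
        ∑ a : ι → ZMod 2, (c a * Ex (fun w' => sg (a ⬝ᵥ W w'))) * sg (a ⬝ᵥ W w) := by
      intro w
      rw [Ex_sum]
      refine sum_congr rfl fun a _ => ?_
      rw [Ex_mul, Ex_mul]
      ring
    simp only [this]
    rw [Ex_sum]
    refine sum_congr rfl fun a _ => ?_
    rw [Ex_mul]
    ring
  rw [e1, e3]
  have hsum : ∑ a : ι → ZMod 2, c a = 1 := by
    have h1 := autocorr φ 0
    simp only [dotProduct_zero, sg_zero, mul_one, add_zero, hφ] at h1
    rw [Ex_const] at h1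
    exact h1
  have hc00 : c 0 = (Ex φ) ^ 2 := by
    simp [hc]
  rw [← add_sum_erase _ _ (mem_univ (0 : ι → ZMod 2))]
  have h0 : c 0 * (Ex (fun w => sg ((0 : ι → ZMod 2) ⬝ᵥ W w))) ^ 2 = (Ex φ) ^ 2 := by
    rw [hc00]
    simp [Ex_const]
  rw [h0]
  refine add_le_add le_rfl ?_
  calc ∑ a ∈ univ.erase (0 : ι → ZMod 2), c a * (Ex (fun w => sg (a ⬝ᵥ W w))) ^ 2
      ≤ ∑ a ∈ univ.erase (0 : ι → ZMod 2), c a * ε ^ 2 := by
        refine sum_le_sum fun a ha => mul_le_mul_of_nonneg_left ?_ (hc0 a)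
        have := hW a (ne_of_mem_erase ha)
        rw [← sq_abs]
        exact pow_le_pow_left₀ (abs_nonneg _) this 2
    _ = (∑ a ∈ univ.erase (0 : ι → ZMod 2), c a) * ε ^ 2 := by rw [sum_mul]
    _ ≤ 1 * ε ^ 2 := by
        refine mul_le_mul_of_nonneg_right ?_ (sq_nonneg _)
        rw [← hsum]
        exact sum_le_sum_of_subset_of_nonneg (erase_subset _ _) fun a _ _ => hc0 a
    _ = ε ^ 2 := one_mul _

theorem Fool.mono {Ω : Type} [Fintype Ω] {d : ℕ} {e e' : ℝ} {Y : Ω → ι → ZMod 2}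
    (h : Fool d e Y) (he : e ≤ e') : Fool d e' Y := fun f hf => (h f hf).trans he

theorem Fool.zero {Ω : Type} [Fintype Ω] [Nonempty Ω] {e : ℝ} (he : 0 ≤ e)
    (Y : Ω → ι → ZMod 2) : Fool 0 e Y := by
  intro f hf
  have h1 : (fun ω => sg (f (Y ω))) = fun _ => sg (f 0) := by
    funext ω; rw [hf (Y ω) 0]
  have h2 : (fun x : ι → ZMod 2 => sg (f x)) = fun _ => sg (f 0) := by
    funext x; rw [hf x 0]
  rw [h1, h2, Ex_const, Ex_const]
  simpa using he

/-- adding an independent variable preserves fooling -/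
theorem Fool.add_indep {Ω Ω' : Type} [Fintype Ω] [Fintype Ω'] [Nonempty Ω'] {d : ℕ} {e : ℝ}
    {Y : Ω → ι → ZMod 2} (hY : Fool d e Y) (W : Ω' → ι → ZMod 2) :
    Fool d e (fun p : Ω × Ω' => Y p.1 + W p.2) := by
  intro f hf
  rw [Ex_prod, Ex_comm]
  have h1 : ∀ w : Ω', Ex (fun x : ι → ZMod 2 => sg (f x)) =
      Ex (fun x : ι → ZMod 2 => sg (f (x + W w))) := fun w =>
    (Ex_shift (fun x => sg (f x)) (W w)).symm
  rw [← Ex_const (Ω := Ω') (Ex (fun x : ι → ZMod 2 => sg (f x))), ← Ex_sub]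
  refine abs_Ex_le fun w => ?_
  rw [h1 w]
  exact hY (fun x => f (x + W w)) (hf.shift _)

/-- The induction step of Viola's theorem. -/
theorem fool_step {Ω Ω' : Type} [Fintype Ω] [Fintype Ω'] [Nonempty Ω] [Nonempty Ω'] {d : ℕ}
    {e ε : ℝ} {Y : Ω → ι → ZMod 2} (hY : Fool d e Y) {W : Ω' → ι → ZMod 2} (hW : Bias ε W)
    (hε : 0 ≤ ε) (he : 0 < e) (hee : ε ^ 2 ≤ e) :
    Fool (d + 1) (3 * √e) (fun p : Ω × Ω' => Y p.1 + W p.2) := by
  intro f hf
  have hZ := hY.add_indep W
  set Z : Ω × Ω' → ι → ZMod 2 := fun p => Y p.1 + W p.2 with hZdef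
  set b := Ex (fun x : ι → ZMod 2 => sg (f x)) with hb
  have hse : 0 < √e := Real.sqrt_pos.2 he
  have hss : √e * √e = e := Real.mul_self_sqrt he.le
  rcases le_or_gt (√e) |b| with hcase | hcase
  · -- large bias
    have i1 : b * Ex (fun p => sg (f (Z p))) =
        Ex (fun h : ι → ZMod 2 => Ex (fun p => sg (f (Z p + h) + f (Z p)))) := by
      rw [Ex_comm, ← Ex_mul]
      congr 1
      funext p
      have : (fun h : ι → ZMod 2 => sg (f (Z p + h) + f (Z p))) =
          fun h => sg (f (h + Z p)) * sg (f (Z p)) := by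
        funext h; rw [sg_add, add_comm (Z p) h]
      rw [this, Ex_mul', Ex_shift (fun x => sg (f x)) (Z p)]
    have i2 : b * b = Ex (fun h : ι → ZMod 2 => Ex (fun x : ι → ZMod 2 =>
        sg (f (x + h) + f x))) := by
      conv_lhs => rw [hb, ← Ex_mul]
      rw [Ex_comm]
      congr 1
      funext x
      have : (fun h : ι → ZMod 2 => sg (f (x + h) + f x)) =
          fun h => sg (f (h + x)) * sg (f x) := by
        funext h; rw [sg_add, add_comm x h]
      rw [this, Ex_mul', Ex_shift (fun x => sg (f x)) x]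
    have i3 : |b * Ex (fun p => sg (f (Z p))) - b * b| ≤ e := by
      rw [i1, i2, ← Ex_sub]
      exact abs_Ex_le fun h => hZ _ (hf h)
    rw [← mul_sub, abs_mul] at i3
    have i4 : √e * |Ex (fun p => sg (f (Z p))) - b| ≤ √e * √e := by
      rw [hss]
      exact (mul_le_mul_of_nonneg_right hcase (abs_nonneg _)).trans i3
    have i5 := le_of_mul_le_mul_left i4 hse
    linarith
  · -- small bias
    have j1 : (Ex (fun p => sg (f (Z p)))) ^ 2 ≤ 3 * e := by
      rw [Ex_prod]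
      refine (sq_Ex_le _).trans ?_
      have a1 : ∀ y : Ω, (Ex (fun w => sg (f (Z (y, w))))) ^ 2 =
          Ex (fun w => Ex (fun w' => sg (f (Y y + W w) + f (Y y + W w')))) := by
        intro y
        simp only [hZdef, sg_add, Ex_mul, Ex_mul']
        ring
      simp only [a1]
      have a2 : ∀ x : ι → ZMod 2, (Ex (fun w => sg (f (x + W w)))) ^ 2 =
          Ex (fun w => Ex (fun w' => sg (f (x + W w) + f (x + W w')))) := by
        intro x
        simp only [sg_add, Ex_mul, Ex_mul']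
        ring
      have a3 := l2_bias hε hW (fun x => sg (f x)) (fun x => sg_sq _)
      simp only [a2] at a3
      rw [Ex_comm] at a3 ⊢
      have a4 : Ex (fun w => Ex (fun y => Ex (fun w' => sg (f (Y y + W w) + f (Y y + W w'))))) ≤
          Ex (fun w => Ex (fun x : ι → ZMod 2 => Ex (fun w' =>
            sg (f (x + W w) + f (x + W w')))) + e) := by
        refine Ex_mono fun w => ?_
        rw [Ex_comm, Ex_comm (fun (x : ι → ZMod 2) w' => sg (f (x + W w) + f (x + W w')))]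
        rw [← Ex_const (Ω := Ω') e, ← Ex_add]
        refine Ex_mono fun w' => ?_
        have hdeg : DegLE d (fun x => f (x + W w) + f (x + W w')) := by
          refine (((hf (W w + W w')).shift (W w))).congr fun x => ?_
          have : x + W w + (W w + W w') = x + W w' := by
            have h5 := char2 (W w)
            calc x + W w + (W w + W w') = x + (W w + W w) + W w' := by abel
              _ = x + W w' := by rw [h5, add_zero]
          rw [this, add_comm]
        have := hY _ hdeg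
        rw [abs_le] at this
        linarith [this.2]
      rw [Ex_add, Ex_const] at a4
      have a5 : b ^ 2 ≤ e := by
        rw [← sq_abs, ← hss, sq]
        exact mul_le_mul hcase.le hcase.le (abs_nonneg _) hse.le
      linarith
    have j2 : |Ex (fun p => sg (f (Z p)))| ≤ 2 * √e := by
      apply abs_le_of_sq_le_sq _ (by positivity)
      have : (2 * √e) ^ 2 = 4 * e := by
        rw [mul_pow, sq (√e), hss]; norm_num
      rw [this]
      linarith
    calc |Ex (fun p => sg (f (Z p))) - b| ≤ |Ex (fun p => sg (f (Z p)))| + |b| := abs_sub _ _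
      _ ≤ 3 * √e := by linarith

/-- sums of `D` elements of `A` -/
def sums (A : Set (ι → ZMod 2)) : ℕ → Set (ι → ZMod 2)
  | 0 => {0}
  | D + 1 => {z | ∃ y ∈ sums A D, ∃ w ∈ A, z = y + w}

/-- **Viola's theorem**: sums of `D` independent samples of a small-bias distribution fool
polynomials of degree at most `D`. -/
theorem viola {Ω : Type} [Fintype Ω] [Nonempty Ω] {ε : ℝ} (hε : 0 ≤ ε) {W : Ω → ι → ZMod 2}
    (hW : Bias ε W) : ∀ (D : ℕ) (η : ℝ), 0 < η → η ≤ 9 → ε ≤ (η / 9) ^ (2 ^ D) →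
    ∃ (Ω' : Type) (_ : Fintype Ω') (_ : Nonempty Ω') (Y : Ω' → ι → ZMod 2),
      (∀ ω, Y ω ∈ sums (Set.range W) D) ∧ Fool D η Y
  | 0, η, h0, h9, h => ⟨Unit, inferInstance, inferInstance, fun _ => 0,
      fun _ => rfl, Fool.zero h0.le _⟩
  | D + 1, η, h0, h9, h => by
    have hq : η ^ 2 / 9 / 9 = (η / 9) ^ 2 := by ring
    have hle1 : η / 9 ≤ 1 := by linarith
    have hpos : 0 < η / 9 := by positivity
    have h1 : ε ≤ (η ^ 2 / 9 / 9) ^ (2 ^ D) := by
      rw [hq, ← pow_mul, ← pow_succ']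
      exact h
    obtain ⟨Ω', i1, i2, Y, hY1, hY2⟩ := viola hε hW D (η ^ 2 / 9) (by positivity)
      (by nlinarith) h1
    refine ⟨Ω' × Ω, inferInstance, inferInstance, fun p => Y p.1 + W p.2,
      fun p => ⟨Y p.1, hY1 _, W p.2, ⟨p.2, rfl⟩, rfl⟩, ?_⟩
    have h2 : ε ≤ η ^ 2 / 9 / 9 := by
      refine h1.trans ?_
      have h3 : η ^ 2 / 9 / 9 ≤ 1 := by
        rw [hq]; exact pow_le_one₀ hpos.le hle1
      exact pow_le_of_le_one (by positivity) h3 (by positivity)
    have h3 : ε ^ 2 ≤ η ^ 2 / 9 := by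
      have h4 : ε ≤ 1 := h2.trans (by rw [hq]; exact pow_le_one₀ hpos.le hle1)
      have h5 : ε ^ 2 ≤ ε := by nlinarith
      have h6 : η ^ 2 / 9 / 9 ≤ η ^ 2 / 9 := by
        have : 0 ≤ η ^ 2 / 9 := by positivity
        linarith
      linarith
    have h4 := fool_step hY2 hW hε (by positivity) h3
    have h5 : 3 * √(η ^ 2 / 9) = η := by
      rw [Real.sqrt_div' _ (by norm_num), Real.sqrt_sq h0.le]
      have : √(9 : ℝ) = 3 := by
        rw [show (9 : ℝ) = 3 ^ 2 by norm_num, Real.sqrt_sq (by norm_num)]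
      rw [this]
      ring
    rw [h5] at h4
    exact h4

end

end Pool.Agent.Helper51.ZP
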